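import Pool.Agent.H49.TF.Calc

/-!
# KID: identities at a critical manifold

`u : V → ℝ`, its critical points near `0` contain the graph `{y + θ y}` over `K`, and the kernel of `D2 u 0` is contained in `K`.
* `kid_D2`: differentiate `hc` at `y` near `0` in the direction `Y` (`hc.eventually_nhds`: the identity holds near every such `y`):
  `D2 u (y + θ y) (Y + Dθ(y) Y) = 0`.
* `kid_dtheta`: at `y = 0`: `Y + Dθ(0) Y` is in the kernel of `D2 u 0`, so in `K`; `Dθ(0) Y ∈ Kᗮ` (derivative of a function with values in the closed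
  subspace `Kᗮ`: for `k ∈ K` the function `y ↦ ⟪θ y, k⟫` is `0`). So `Dθ(0) Y ∈ K ⊓ Kᗮ = ⊥`.
* `kid_ker`: consequence of the two.
* `kid_D3`: differentiate `kid_D2` (`y ↦ D2 u (y + θ y) (Z + Dθ(y) Z) w`) at `0` in the direction `Y`:
  `D3 u 0 (Y + Dθ(0) Y) (Z + Dθ(0) Z) w + D2 u 0 (D2 θ 0 Y Z) w = 0`.
* `kid_F1`, `kid_F2`: chain rule for `y ↦ v (y + θ y)`; the first derivative near `0` is `Z ↦ fderiv v (y + θ y) (Z + Dθ(y) Z)`; differentiate again at `0`.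
-/

set_option autoImplicit false

open scoped Topology ContDiff RealInnerProductSpace
open Filter Set

namespace TotFoc

private theorem Kid_aux {V W : Type*} [NormedAddCommGroup V] [NormedSpace ℝ V]
    [NormedAddCommGroup W] [NormedSpace ℝ W] (S : V →L[ℝ] W) {θ : V → W} {x : V}
    (hθ : ContDiffAt ℝ 2 θ x) :
    HasFDerivAt (fun y : V => S + fderiv ℝ θ y) (fderiv ℝ (fderiv ℝ θ) x) x :=
  (Calc_diff hθ).hasFDerivAt.const_add S

variable {V : Type*} [NormedAddCommGroup V] [InnerProductSpace ℝ V] [FiniteDimensional ℝ V]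

section

variable {K : Submodule ℝ V} {u : V → ℝ} {θ : K → V}

omit [FiniteDimensional ℝ V] in
private theorem Kid_psi {y : K} (h : DifferentiableAt ℝ θ y) :
    HasFDerivAt (fun y : K => (y : V) + θ y) (K.subtypeL + fderiv ℝ θ y) y :=
  K.subtypeL.hasFDerivAt.add h.hasFDerivAt

omit [FiniteDimensional ℝ V] in
private theorem Kid_tendsto (hθ : ContinuousAt θ 0) (h0 : θ 0 = 0) :
    Tendsto (fun y : K => (y : V) + θ y) (𝓝 0) (𝓝 0) := by
  have h1 : ContinuousAt (fun y : K => (y : V) + θ y) 0 :=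
    (K.subtypeL.continuous.continuousAt).add hθ
  have h2 := h1.tendsto
  simpa [h0] using h2

theorem kid_perp (hθ : ContDiffAt ℝ 1 θ 0) (hp : ∀ y, θ y ∈ Kᗮ) (Y : K) :
    fderiv ℝ θ 0 Y ∈ Kᗮ := by
  rw [Submodule.mem_orthogonal]
  intro k hk
  have h1 : HasFDerivAt θ (fderiv ℝ θ 0) 0 := (hθ.differentiableAt (by norm_num)).hasFDerivAt
  have h2 : HasFDerivAt (fun y => innerSL ℝ k (θ y)) ((innerSL ℝ k).comp (fderiv ℝ θ 0)) 0 :=
    (innerSL ℝ k).hasFDerivAt.comp (0 : K) h1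
  have h3 : (fun y : K => innerSL ℝ k (θ y)) = fun _ => 0 := by
    funext y
    exact (Submodule.mem_orthogonal K _).1 (hp y) k hk
  rw [h3] at h2
  have h4 := h2.unique (hasFDerivAt_const (0:ℝ) (0 : K))
  have h5 := congrArg (fun L : K →L[ℝ] ℝ => L Y) h4
  exact h5

theorem kid_D2 (hu : ContDiffAt ℝ 3 u 0) (hθ : ContDiffAt ℝ 2 θ 0) (h0 : θ 0 = 0)
    (hc : ∀ᶠ y : K in 𝓝 0, fderiv ℝ u ((y : V) + θ y) = 0) :
    ∀ᶠ y : K in 𝓝 0, ∀ Y : K, D2 u ((y : V) + θ y) ((Y : V) + fderiv ℝ θ y Y) = 0 := by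
  have hu' : ∀ᶠ z in 𝓝 (0 : V), ContDiffAt ℝ 3 u z := hu.eventually (by simp)
  have hθ' : ∀ᶠ y in 𝓝 (0 : K), ContDiffAt ℝ 2 θ y := hθ.eventually (by simp)
  filter_upwards [hc.eventually_nhds, (Kid_tendsto hθ.continuousAt h0).eventually hu', hθ']
    with y g1 g2 g3 Y
  have h1 : HasFDerivAt (fun y : K => fderiv ℝ u ((y : V) + θ y))
      ((fderiv ℝ (fderiv ℝ u) ((y : V) + θ y)).comp (K.subtypeL + fderiv ℝ θ y)) y :=
    HasFDerivAt.comp (g := fderiv ℝ u) (f := fun y : K => (y : V) + θ y) y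
      (Calc_diff (g2.of_le (by norm_num))).hasFDerivAt
      (Kid_psi (g3.differentiableAt (by norm_num)))
  have h2 : HasFDerivAt (fun y : K => fderiv ℝ u ((y : V) + θ y)) (0 : K →L[ℝ] V →L[ℝ] ℝ) y := by
    refine (hasFDerivAt_const (0 : V →L[ℝ] ℝ) y).congr_of_eventuallyEq ?_
    filter_upwards [g1] with z hz
    exact hz
  have h3 := congrArg (fun L : K →L[ℝ] V →L[ℝ] ℝ => L Y) (h1.unique h2)
  exact h3

theorem kid_dtheta (hu : ContDiffAt ℝ 3 u 0) (hθ : ContDiffAt ℝ 2 θ 0) (hp : ∀ y, θ y ∈ Kᗮ)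
    (h0 : θ 0 = 0) (hc : ∀ᶠ y : K in 𝓝 0, fderiv ℝ u ((y : V) + θ y) = 0)
    (hK : ∀ z, (∀ z', D2 u 0 z z' = 0) → z ∈ K) : fderiv ℝ θ 0 = 0 := by
  ext Y
  have h1 := (kid_D2 hu hθ h0 hc).self_of_nhds Y
  rw [h0, Submodule.coe_zero, add_zero] at h1
  have h2 : (Y : V) + fderiv ℝ θ 0 Y ∈ K := hK _ (fun z' => by rw [h1]; rfl)
  have h3 : fderiv ℝ θ 0 Y ∈ K := by
    have := K.sub_mem h2 Y.2
    rwa [add_sub_cancel_left] at this
  have h4 := kid_perp (hθ.of_le (by norm_num)) hp Y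
  have h5 := (Submodule.mem_orthogonal K _).1 h4 _ h3
  exact inner_self_eq_zero.1 h5

theorem kid_ker (hu : ContDiffAt ℝ 3 u 0) (hθ : ContDiffAt ℝ 2 θ 0) (hp : ∀ y, θ y ∈ Kᗮ)
    (h0 : θ 0 = 0) (hc : ∀ᶠ y : K in 𝓝 0, fderiv ℝ u ((y : V) + θ y) = 0)
    (hK : ∀ z, (∀ z', D2 u 0 z z' = 0) → z ∈ K) : ∀ z, (∀ z', D2 u 0 z z' = 0) ↔ z ∈ K := by
  intro z
  refine ⟨hK z, fun hz z' => ?_⟩
  have h1 := (kid_D2 hu hθ h0 hc).self_of_nhds ⟨z, hz⟩
  rw [kid_dtheta hu hθ hp h0 hc hK, h0, Submodule.coe_zero, add_zero] at h1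
  simp only [_root_.zero_apply, add_zero] at h1
  rw [h1]
  rfl

theorem kid_D3 (hu : ContDiffAt ℝ 3 u 0) (hθ : ContDiffAt ℝ 2 θ 0) (hp : ∀ y, θ y ∈ Kᗮ)
    (h0 : θ 0 = 0) (hc : ∀ᶠ y : K in 𝓝 0, fderiv ℝ u ((y : V) + θ y) = 0)
    (hK : ∀ z, (∀ z', D2 u 0 z z' = 0) → z ∈ K) (Y Z : K) (w : V) :
    D3 u 0 Y Z w + D2 u 0 (D2 θ 0 Y Z) w = 0 := by
  have hd := kid_dtheta hu hθ hp h0 hc hK
  have hψ0 : ((0 : K) : V) + θ 0 = 0 := by rw [h0, Submodule.coe_zero, add_zero]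
  have h1 : HasFDerivAt (fun y : K => D2 u ((y : V) + θ y))
      ((fderiv ℝ (D2 u) (((0 : K) : V) + θ 0)).comp (K.subtypeL + fderiv ℝ θ 0)) 0 := by
    refine HasFDerivAt.comp (g := D2 u) (f := fun y : K => (y : V) + θ y) (0 : K) ?_
      (Kid_psi (hθ.differentiableAt (by norm_num)))
    rw [hψ0]
    exact (Calc_diff2 hu).hasFDerivAt
  have h2 : HasFDerivAt (fun y : K => (Z : V) + fderiv ℝ θ y Z)
      ((ContinuousLinearMap.apply ℝ V Z).comp (fderiv ℝ (fderiv ℝ θ) 0)) 0 := by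
    have h3 := (ContinuousLinearMap.apply ℝ V Z).hasFDerivAt.comp (0 : K)
      (Calc_diff hθ).hasFDerivAt
    exact h3.const_add (Z : V)
  have h3 := h1.clm_apply h2
  have h4 : HasFDerivAt (fun y : K => D2 u ((y : V) + θ y) ((Z : V) + fderiv ℝ θ y Z))
      (0 : K →L[ℝ] V →L[ℝ] ℝ) 0 := by
    refine (hasFDerivAt_const (0 : V →L[ℝ] ℝ) (0 : K)).congr_of_eventuallyEq ?_
    filter_upwards [kid_D2 hu hθ h0 hc] with y hy
    exact hy Z
  have h5 := congrArg (fun L : K →L[ℝ] V →L[ℝ] ℝ => L Y w) (h3.unique h4)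
  rw [hψ0, hd] at h5
  simp only [add_zero, _root_.add_apply, ContinuousLinearMap.comp_apply,
    ContinuousLinearMap.flip_apply, ContinuousLinearMap.apply_apply, _root_.zero_apply,
    Submodule.subtypeL_apply] at h5
  rw [add_comm]
  exact h5

end

theorem kid_F1 {K : Submodule ℝ V} {v : V → ℝ} {θ : K → V} (hv : ContDiffAt ℝ 2 v 0)
    (hθ : ContDiffAt ℝ 2 θ 0) (h0 : θ 0 = 0) (hd : fderiv ℝ θ 0 = 0) (Z : K) :
    fderiv ℝ (fun y : K => v ((y : V) + θ y)) 0 Z = fderiv ℝ v 0 Z := by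
  have hψ0 : ((0 : K) : V) + θ 0 = 0 := by rw [h0, Submodule.coe_zero, add_zero]
  have h1 : HasFDerivAt (fun y : K => v ((y : V) + θ y))
      ((fderiv ℝ v (((0 : K) : V) + θ 0)).comp (K.subtypeL + fderiv ℝ θ 0)) 0 := by
    refine HasFDerivAt.comp (g := v) (f := fun y : K => (y : V) + θ y) (0 : K) ?_
      (Kid_psi (hθ.differentiableAt (by norm_num)))
    rw [hψ0]
    exact (hv.differentiableAt (by norm_num)).hasFDerivAt
  rw [h1.fderiv, hψ0, hd, add_zero]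
  rfl

theorem kid_F2 {K : Submodule ℝ V} {v : V → ℝ} {θ : K → V} (hv : ContDiffAt ℝ 2 v 0)
    (hθ : ContDiffAt ℝ 2 θ 0) (h0 : θ 0 = 0) (hd : fderiv ℝ θ 0 = 0) (Y Z : K) :
    D2 (fun y : K => v ((y : V) + θ y)) 0 Y Z = D2 v 0 Y Z + fderiv ℝ v 0 (D2 θ 0 Y Z) := by
  have hψ0 : ((0 : K) : V) + θ 0 = 0 := by rw [h0, Submodule.coe_zero, add_zero]
  have hv' : ∀ᶠ z in 𝓝 (0 : V), DifferentiableAt ℝ v z := Calc_diff_nhds hv
  have h1 : (fderiv ℝ fun y : K => v ((y : V) + θ y)) =ᶠ[𝓝 0]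
      fun y : K => (fderiv ℝ v ((y : V) + θ y)).comp (K.subtypeL + fderiv ℝ θ y) := by
    filter_upwards [(Kid_tendsto hθ.continuousAt h0).eventually hv', Calc_diff_nhds hθ]
      with y g1 g2
    exact (HasFDerivAt.comp (g := v) (f := fun y : K => (y : V) + θ y) y g1.hasFDerivAt
      (Kid_psi g2)).fderiv
  have h2 : HasFDerivAt (fun y : K => fderiv ℝ v ((y : V) + θ y))
      ((fderiv ℝ (fderiv ℝ v) (((0 : K) : V) + θ 0)).comp (K.subtypeL + fderiv ℝ θ 0)) 0 := by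
    refine HasFDerivAt.comp (g := fderiv ℝ v) (f := fun y : K => (y : V) + θ y) (0 : K) ?_
      (Kid_psi (hθ.differentiableAt (by norm_num)))
    rw [hψ0]
    exact (Calc_diff hv).hasFDerivAt
  have h3 : HasFDerivAt (fun y : K => K.subtypeL + fderiv ℝ θ y) (fderiv ℝ (fderiv ℝ θ) 0) 0 :=
    Kid_aux K.subtypeL hθ
  have h4 := h2.clm_comp h3
  have h5 : D2 (fun y : K => v ((y : V) + θ y)) 0 =
      fderiv ℝ (fun y : K => (fderiv ℝ v ((y : V) + θ y)).comp (K.subtypeL + fderiv ℝ θ y)) 0 :=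
    h1.fderiv_eq
  rw [h5, h4.fderiv, hψ0, hd]
  simp only [add_zero, _root_.add_apply, ContinuousLinearMap.comp_apply,
    ContinuousLinearMap.flip_apply, ContinuousLinearMap.compL_apply, Submodule.subtypeL_apply]
  rw [add_comm]
  rfl

end TotFoc
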