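import Pool.Agent.H49.TF.Kappa
import Pool.Agent.H49.TF.Crs.Kid

/-!
# DAT: the critical manifold in a chart

`S = CrS X c a`, `φ = gr q T g`, `KE = kerH T g c (c • q - a) ≤ T` (as subspaces of `E`), `K = KE.comap T.subtype` (`Z ∈ K ↔ (Z : E) ∈ KE ↔ ∀ Z', hs T g c (c • q - a) Z Z' = 0`;
if `Z : E` is in `KE` then it is in `T`). `ι : K → KE`, `ι y = ⟨(y : E), _⟩` is a bijective linear isometry. Put `θ y = T.orthogonalProjectionOnto (gS (ι y))`.
* `perp`: for `k ∈ K`: `⟪θ y, k⟫ = ⟪gS (ι y), (k : E)⟫ = 0` (`(k : E) ∈ T`, `gS _ ∈ KEᗮ`). `zero`, `smooth`: clear (`hS.zero`, `hS.smooth`, `2 ≤ r`, `ι` and the projection are linear).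
* for `y : K` near `0`: `x = gr q KE gS (ι y) ∈ S` (`hS.mem`), so `x ∈ X`, `x` near `q`, `x = φ (T.orthogonalProjectionOnto (x - q))` (`h.surj`) and `x - q = y + gS (ι y)` has the
  projection `y + θ y`. So `φ (y + θ y) = gr q KE gS (ι y)` (*), and `Crit X c a x` gives `fderiv (fn c a ∘ φ) (y + θ y) = 0` by `h.crit_near` (`y + θ y → 0`): `crit`.
* `ker`: `h.hs_eq`.
* By (*) near `0`: `fn c' a' (φ (y + θ y)) = f (ι y)`, `f = fn c' a' ∘ gr q KE gS`. `Crit S c' a' q` gives `fderiv f 0 = 0` (`hS.crit_near` at `0`, `gr_zero`; or `fderiv_fn_gr` and `hS.der`):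
  `rest1` by the chain rule, and `D2_comp` (with `χ = ι`, `fderiv ι = ι`) with `hS.hs_eq` gives `D2 (f ∘ ι) 0 Y Z = hs KE gS c' (c' • q - a') (ι Y) (ι Z)`; `rest2` is `hS.nd_iff`.
-/

set_option autoImplicit false

open scoped Topology ContDiff RealInnerProductSpace
open Filter Set

namespace TotFoc

variable {E : Type*} [NormedAddCommGroup E] [InnerProductSpace ℝ E] [FiniteDimensional ℝ E]

/-- The critical set of `fn c a` near `q`, in the chart `g` of `X`, is the graph of `θ` over `K`. -/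
structure CrData (r : ℕ∞ω) (X : Set E) (c : ℝ) (a q : E) (T : Submodule ℝ E) (g : T → E)
    (K : Submodule ℝ T) (θ : K → T) : Prop where
  smooth : ContDiffAt ℝ 2 θ 0
  perp : ∀ y, θ y ∈ Kᗮ
  zero : θ 0 = 0
  crit : ∀ᶠ y : K in 𝓝 0, fderiv ℝ (fun z => fn c a (gr q T g z)) ((y : T) + θ y) = 0
  ker : ∀ z : T, (∀ z', D2 (fun z => fn c a (gr q T g z)) 0 z z' = 0) → z ∈ K
  rest1 : ∀ (c' : ℝ) (a' : E), Crit (CrS X c a) c' a' q →
    fderiv ℝ (fun y : K => fn c' a' (gr q T g ((y : T) + θ y))) 0 = 0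
  rest2 : ∀ (c' : ℝ) (a' : E), Crit (CrS X c a) c' a' q → (ND r (CrS X c a) c' a' q ↔
    ∀ Y : K, (∀ Z : K, D2 (fun y : K => fn c' a' (gr q T g ((y : T) + θ y))) 0 Y Z = 0) → Y = 0)

private theorem Dat_two_le {r : ℕ∞ω} (hr : ∞ ≤ r) : (2 : ℕ∞ω) ≤ r := by
  refine le_trans ?_ hr
  have : ((2 : ℕ∞) : ℕ∞ω) ≤ ((⊤ : ℕ∞) : ℕ∞ω) := WithTop.coe_le_coe.mpr le_top
  exact this

theorem Dat_aux {r : ℕ∞ω} (h2 : 2 ≤ r) {X : Set E} {c : ℝ} {a q : E} {T : Submodule ℝ E}
    {g : T → E} (h : Chart r X q T g) {KE : Submodule ℝ E} (hle : KE ≤ T)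
    (hker : ∀ z : T, (∀ z', hs T g c (c • q - a) z z' = 0) → (z : E) ∈ KE) {gS : KE → E}
    (hS : Chart r (CrS X c a) q KE gS) :
    ∃ (K : Submodule ℝ T) (θ : K → T), CrData r X c a q T g K θ := by
  have h1 : (1 : ℕ∞ω) ≤ r := le_trans (by norm_num) h2
  let K : Submodule ℝ T := KE.comap T.subtype
  let ι : K ≃L[ℝ] KE := (Submodule.comapSubtypeEquivOfLe hle).toContinuousLinearEquiv
  have hι : ∀ y : K, ((ι y : KE) : E) = ((y : T) : E) := fun y => rfl
  let θ : K → T := fun y => T.orthogonalProjectionOnto (gS (ι y))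
  have hι0 : ι 0 = 0 := map_zero ι
  have hθ0 : θ 0 = 0 := by
    show T.orthogonalProjectionOnto (gS (ι 0)) = 0
    rw [hι0, hS.zero, map_zero]
  have hιt : Tendsto (fun y : K => ι y) (𝓝 0) (𝓝 0) := by
    have := ι.continuous.tendsto 0
    rwa [hι0] at this
  have hgc : ContDiffAt ℝ 2 (fun y : K => gS (ι y)) 0 := by
    have e1 : ContDiffAt ℝ 2 gS (ι 0) := by rw [hι0]; exact hS.smooth.of_le h2
    exact e1.comp (0 : K) ι.contDiff.contDiffAt
  have hθc : ContDiffAt ℝ 2 θ 0 :=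
    (T.orthogonalProjectionOnto).contDiff.contDiffAt.comp (0 : K) hgc
  have hθt : Tendsto (fun y : K => (y : T) + θ y) (𝓝 0) (𝓝 0) := by
    have e1 : ContinuousAt (fun y : K => (y : T) + θ y) 0 :=
      (continuous_subtype_val.continuousAt).add hθc.continuousAt
    have e2 := e1.tendsto
    simpa [hθ0] using e2
  -- the two parametrisations agree
  have hgr : ∀ᶠ y : K in 𝓝 0, gr q T g ((y : T) + θ y) = gr q KE gS (ι y) := by
    filter_upwards [hιt.eventually hS.mem, (hS.tendsto_gr.comp hιt).eventually h.surj]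
      with y hy1 hy2
    have hy3 := hy2 hy1.1
    have e1 : T.orthogonalProjectionOnto (gr q KE gS (ι y) - q) = (y : T) + θ y := by
      have e2 : gr q KE gS (ι y) - q = ((y : T) : E) + gS (ι y) := by
        unfold gr
        rw [hι]
        abel
      rw [e2, map_add, Submodule.orthogonalProjectionOnto_mem_subspace_eq_self]
    rw [← e1]
    exact hy3
  have hfn : ∀ (c' : ℝ) (a' : E), (fun y : K => fn c' a' (gr q T g ((y : T) + θ y))) =ᶠ[𝓝 0]
      fun y : K => fn c' a' (gr q KE gS (ι y)) := by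
    intro c' a'
    filter_upwards [hgr] with y hy
    rw [hy]
  have hcd : ∀ (c' : ℝ) (a' : E), ContDiffAt ℝ 2 (fun z : KE => fn c' a' (gr q KE gS z)) 0 :=
    fun c' a' => (contDiff_fn c' a').contDiffAt.comp (0 : KE) (hS.contDiffAt_gr.of_le h2)
  have hf0 : ∀ (c' : ℝ) (a' : E), Crit (CrS X c a) c' a' q →
      fderiv ℝ (fun z : KE => fn c' a' (gr q KE gS z)) 0 = 0 := by
    intro c' a' hc'
    have e1 := (hS.crit_near h1).self_of_nhds c' a'
    rw [hS.gr_zero] at e1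
    exact e1.mp hc'
  have hιd : fderiv ℝ (fun y : K => ι y) 0 = (ι : K →L[ℝ] KE) := ι.hasFDerivAt.fderiv
  have hD2 : ∀ (c' : ℝ) (a' : E), Crit (CrS X c a) c' a' q → ∀ Y Z : K,
      D2 (fun y : K => fn c' a' (gr q T g ((y : T) + θ y))) 0 Y Z
        = hs KE gS c' (c' • q - a') (ι Y) (ι Z) := by
    intro c' a' hc' Y Z
    rw [D2_congr (hfn c' a')]
    have e1 := D2_comp (u := fun z : KE => fn c' a' (gr q KE gS z)) (χ := fun y : K => ι y)
      (z := (0 : K)) (by rw [hι0]; exact hcd c' a') ι.contDiff.contDiffAt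
      (by rw [hι0]; exact hf0 c' a' hc') Y Z
    rw [e1, hιd, hι0, ← hS.hs_eq h2]
    rfl
  refine ⟨K, θ, ?_, ?_, hθ0, ?_, ?_, ?_, ?_⟩
  · exact hθc
  · intro y
    rw [Submodule.mem_orthogonal]
    intro k hk
    have hk' : (k : E) ∈ KE := hk
    have e1 : ⟪(k : E), gS (ι y)⟫ = 0 := Submodule.inner_right_of_mem_orthogonal hk' (hS.perp _)
    have e2 : ⟪k, θ y⟫ = ⟪(k : E), gS (ι y)⟫ :=
      Submodule.inner_orthogonalProjectionOnto_eq_of_mem_left (K := T) k (gS (ι y))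
    rw [e2, e1]
  · have hb := hθt.eventually (h.crit_near h1)
    filter_upwards [hgr, hιt.eventually hS.mem, hb] with y hy1 hy2 hy3
    rw [← hy3 c a, hy1]
    exact hy2
  · intro z hz
    refine hker z fun z' => ?_
    rw [← h.hs_eq h2]
    exact hz z'
  · intro c' a' hc'
    have e0 : HasFDerivAt (fun z : KE => fn c' a' (gr q KE gS z)) (0 : KE →L[ℝ] ℝ) (ι 0) := by
      rw [hι0]
      have := ((hcd c' a').differentiableAt (by norm_num)).hasFDerivAt
      rwa [hf0 c' a' hc'] at this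
    rw [(hfn c' a').fderiv_eq]
    have e1 := e0.comp (0 : K) ι.hasFDerivAt
    have e2 := e1.fderiv
    simpa [Function.comp_def] using e2
  · intro c' a' hc'
    rw [hS.nd_iff h1]
    constructor
    · intro H Y hY
      have e1 : ι Y = 0 := by
        apply H
        intro Z'
        obtain ⟨Z, rfl⟩ := ι.surjective Z'
        rw [← hD2 c' a' hc']
        exact hY Z
      exact ι.injective (by rw [e1, hι0])
    · intro H Z hZ
      obtain ⟨Y, rfl⟩ := ι.surjective Z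
      have e1 : Y = 0 := by
        apply H
        intro Z
        rw [hD2 c' a' hc']
        exact hZ (ι Z)
      rw [e1, hι0]

theorem dat {r : ℕ∞ω} (hr : ∞ ≤ r) {X : Set E} {c : ℝ} {a q : E} {T : Submodule ℝ E} {g : T → E}
    (h : Chart r X q T g) {gS : kerH T g c (c • q - a) → E}
    (hS : Chart r (CrS X c a) q (kerH T g c (c • q - a)) gS) :
    ∃ (K : Submodule ℝ T) (θ : K → T), CrData r X c a q T g K θ :=
  Dat_aux (Dat_two_le hr) h
    (fun z hz => by
      obtain ⟨h', -⟩ : ∃ h : z ∈ T, ∀ Z' : T, hs T g c (c • q - a) ⟨z, h⟩ Z' = 0 := hz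
      exact h')
    (fun z hz => by
      show ∃ h : (z : E) ∈ T, ∀ Z' : T, hs T g c (c • q - a) ⟨(z : E), h⟩ Z' = 0
      exact ⟨z.2, hz⟩) hS

theorem fn_lin (c c' ε : ℝ) (a a' x : E) :
    fn (c + ε * c') (a + ε • a') x = fn c a x + ε * fn c' a' x := by
  unfold fn
  rw [inner_add_left, inner_smul_left]
  simp only [RCLike.conj_to_real]
  ring

end TotFoc
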