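import Mathlib

/-!
# EIG: small eigenvalues and solvability for symmetric forms

* `small_eig`: let `A : V →ₗ V` be the operator with `⟪A a, b⟫ = H a b` (`(InnerProductSpace.toDual ℝ V).symm` composed with `H`); it is symmetric.
  Take the orthonormal basis of eigenvectors `e i`, eigenvalues `l i` (`LinearMap.IsSymmetric.eigenvectorBasis`). If `|l i| > δ` for all `i` then
  `‖A W‖² = ∑ (l i)² ⟪e i, W⟫² > δ² ‖W‖²` (`W ≠ 0`; `δ ≥ 0` because `0 ≤ |H W W| ≤ δ ‖W‖²`). But `‖A W‖² = H W (A W) ≤ δ ‖W‖ ‖A W‖`, so `‖A W‖ ≤ δ ‖W‖`: contradiction.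
  So some `|l i| ≤ δ`; take `Z = e i`, `μ = l i`.
* `slv`: the same operator `A`; `hK` says `ker A = K`. `A` is symmetric so its range is contained in `Kᗮ`, and by dimension (`finrank range + finrank ker = finrank V`,
  `Submodule.finrank_add_finrank_orthogonal`) the range is `Kᗮ`. The vector `a` with `⟪a, z⟫ = ℓ z` lies in `Kᗮ`, so `a = A x`, and `z = x - (projection of x to K)` is
  in `Kᗮ` with `A z = a`.
-/

set_option autoImplicit false

open scoped Topology RealInnerProductSpace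
open Filter Set

namespace TotFoc

variable {V : Type*} [NormedAddCommGroup V] [InnerProductSpace ℝ V] [FiniteDimensional ℝ V]

/-- the operator of a bilinear form -/
noncomputable def opH (H : V →L[ℝ] V →L[ℝ] ℝ) : V →ₗ[ℝ] V where
  toFun a := (InnerProductSpace.toDual ℝ V).symm (H a)
  map_add' a b := by rw [map_add, map_add]
  map_smul' k a := by
    rw [map_smul]
    simp

theorem opH_inner (H : V →L[ℝ] V →L[ℝ] ℝ) (a b : V) : ⟪opH H a, b⟫ = H a b := by
  unfold opH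
  simp

theorem opH_symm {H : V →L[ℝ] V →L[ℝ] ℝ} (hH : ∀ a b, H a b = H b a) : (opH H).IsSymmetric := by
  intro a b
  rw [opH_inner, real_inner_comm, opH_inner, hH]

theorem small_eig {H : V →L[ℝ] V →L[ℝ] ℝ} (hH : ∀ a b, H a b = H b a) {W : V} (hW : W ≠ 0) {δ : ℝ}
    (h : ∀ b, |H W b| ≤ δ * ‖W‖ * ‖b‖) :
    ∃ μ : ℝ, |μ| ≤ δ ∧ ∃ Z : V, Z ≠ 0 ∧ ∀ b, H Z b = μ * ⟪Z, b⟫ := by
  have hs := opH_symm hH
  set n := Module.finrank ℝ V with hn
  have hn' : Module.finrank ℝ V = n := rfl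
  have hWpos : 0 < ‖W‖ := norm_pos_iff.2 hW
  have hδ : 0 ≤ δ := by
    have h3 := (abs_nonneg _).trans (h W)
    have h4 : 0 < ‖W‖ * ‖W‖ := mul_pos hWpos hWpos
    rw [mul_assoc] at h3
    exact nonneg_of_mul_nonneg_left h3 h4
  have hAW : ‖opH H W‖ ≤ δ * ‖W‖ := by
    have h1 : ‖opH H W‖ ^ 2 ≤ δ * ‖W‖ * ‖opH H W‖ := by
      rw [← real_inner_self_eq_norm_sq, opH_inner]
      exact (le_abs_self _).trans (h _)
    rcases eq_or_lt_of_le (norm_nonneg (opH H W)) with h4 | h4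
    · rw [← h4]; positivity
    · nlinarith
  by_contra hcon
  push Not at hcon
  have hl : ∀ i, δ < |hs.eigenvalues hn' i| := by
    intro i
    by_contra! hi
    obtain ⟨b, hb⟩ := hcon _ hi (hs.eigenvectorBasis hn' i)
      ((hs.eigenvectorBasis hn').orthonormal.ne_zero i)
    apply hb
    rw [← opH_inner, hs.apply_eigenvectorBasis hn' i]
    simp [inner_smul_left]
  have h1 : ‖opH H W‖ ^ 2 = ∑ i, (hs.eigenvalues hn' i) ^ 2 * ⟪hs.eigenvectorBasis hn' i, W⟫ ^ 2 := by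
    rw [← (hs.eigenvectorBasis hn').sum_sq_norm_inner_right (opH H W)]
    apply Finset.sum_congr rfl
    intro i _
    have h2 : ⟪hs.eigenvectorBasis hn' i, opH H W⟫ =
        hs.eigenvalues hn' i * ⟪hs.eigenvectorBasis hn' i, W⟫ := by
      rw [← hs (hs.eigenvectorBasis hn' i) W, hs.apply_eigenvectorBasis hn' i]
      simp [inner_smul_left]
    rw [h2, Real.norm_eq_abs, sq_abs]
    ring
  have h2 : ‖W‖ ^ 2 = ∑ i, ⟪hs.eigenvectorBasis hn' i, W⟫ ^ 2 := by
    rw [← (hs.eigenvectorBasis hn').sum_sq_norm_inner_right W]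
    apply Finset.sum_congr rfl
    intro i _
    rw [Real.norm_eq_abs, sq_abs]
  have h3 : ∃ i ∈ (Finset.univ : Finset (Fin n)), ⟪hs.eigenvectorBasis hn' i, W⟫ ^ 2 ≠ 0 := by
    apply Finset.exists_ne_zero_of_sum_ne_zero
    rw [← h2]
    positivity
  obtain ⟨i, hi, hi0⟩ := h3
  have h4 : δ ^ 2 * ‖W‖ ^ 2 < ‖opH H W‖ ^ 2 := by
    rw [h1, h2, Finset.mul_sum]
    apply Finset.sum_lt_sum
    · intro j _
      apply mul_le_mul_of_nonneg_right _ (sq_nonneg _)
      rw [← sq_abs (hs.eigenvalues hn' j)]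
      exact pow_le_pow_left₀ hδ (hl j).le 2
    · refine ⟨i, hi, ?_⟩
      apply mul_lt_mul_of_pos_right _ (lt_of_le_of_ne (sq_nonneg _) (Ne.symm hi0))
      rw [← sq_abs (hs.eigenvalues hn' i)]
      exact pow_lt_pow_left₀ (hl i) hδ two_ne_zero
  have h5 : ‖opH H W‖ ^ 2 ≤ (δ * ‖W‖) ^ 2 := pow_le_pow_left₀ (norm_nonneg _) hAW 2
  nlinarith

theorem slv {H : V →L[ℝ] V →L[ℝ] ℝ} (hH : ∀ a b, H a b = H b a) {K : Submodule ℝ V}
    (hK : ∀ z, (∀ z', H z z' = 0) ↔ z ∈ K) {ℓ : V →L[ℝ] ℝ} (hℓ : ∀ z ∈ K, ℓ z = 0) :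
    ∃ z ∈ Kᗮ, ∀ z', H z z' = ℓ z' := by
  have hs := opH_symm hH
  have hker : LinearMap.ker (opH H) = K := by
    ext z
    rw [LinearMap.mem_ker, ← hK]
    constructor
    · intro h z'
      rw [← opH_inner, h, inner_zero_left]
    · intro h
      rw [← inner_self_eq_zero (𝕜 := ℝ), opH_inner]
      exact h _
  have hle : LinearMap.range (opH H) ≤ Kᗮ := by
    rintro _ ⟨x, rfl⟩
    rw [Submodule.mem_orthogonal]
    intro k hk
    rw [← hs k x]
    have : opH H k = 0 := by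
      rw [← LinearMap.mem_ker, hker]; exact hk
    rw [this, inner_zero_left]
  have hrange : LinearMap.range (opH H) = Kᗮ := by
    apply Submodule.eq_of_le_of_finrank_eq hle
    have h1 := LinearMap.finrank_range_add_finrank_ker (opH H)
    have h2 := Submodule.finrank_add_finrank_orthogonal K
    rw [hker] at h1
    omega
  set a : V := (InnerProductSpace.toDual ℝ V).symm ℓ with ha
  have hal : ∀ z, ⟪a, z⟫ = ℓ z := by
    intro z
    rw [ha]
    simp
  have haK : a ∈ Kᗮ := by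
    rw [Submodule.mem_orthogonal]
    intro k hk
    rw [real_inner_comm, hal]
    exact hℓ k hk
  rw [← hrange] at haK
  obtain ⟨x, hx⟩ := haK
  refine ⟨x - K.starProjection x, Submodule.sub_starProjection_mem_orthogonal _, ?_⟩
  intro z'
  have h3 : opH H (K.starProjection x) = 0 := by
    rw [← LinearMap.mem_ker, hker]
    exact Submodule.starProjection_apply_mem _ _
  rw [← opH_inner, map_sub, h3, sub_zero, hx, hal]

end TotFoc
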