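import Pool.Agent.H49.TF.Kappa
import Pool.Agent.H49.TF.Crs.Eig

/-!
# FIX: an approximately degenerate critical point becomes a degenerate critical point of a nearby function

`φ = gr q T g`. Let `y` be near `0` (so that `near_cont`, `near_mem`, `near_tan`, `near_orth`, `crit_near`, `hess_near`, `near_chart` hold, `‖D2 g y‖ ≤ B₁`, `‖φ y‖ ≤ ‖q‖ + 1`), `x = φ y`.
Note `Dg(y) Z ∈ Tᗮ` (`fderiv_mem_orth`), so `‖Z‖ ≤ ‖Z + Dg(y) Z‖` for `Z ∈ T`.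
1. `w = c₁ • x - a₁`, `τ` = orthogonal projection of `w` to `tan X x`. `τ = Z + Dg(y) Z` for some `Z ∈ T` (`near_tan`); `‖τ‖² = ⟪w, τ⟫ = fderiv (fn c₁ a₁ ∘ φ) y Z ≤ δ ‖Z‖ ≤ δ ‖τ‖`
   (`fderiv_fn_gr`), so `‖τ‖ ≤ δ`. `a₁' = a₁ + τ`: `v = c₁ • x - a₁' = w - τ` is normal: `Crit X c₁ a₁' x`. (If `Crit X c₁ a₁ x` then `τ = 0`.)
2. `D2_fn_gr`: `D2 (fn c₁ a₁' ∘ φ) y W Z = D2 (fn c₁ a₁ ∘ φ) y W Z - ⟪τ, D2 g y W Z⟫`, so `|D2 (fn c₁ a₁' ∘ φ) y W Z| ≤ δ (1 + B₁) ‖W‖ ‖Z‖`.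
3. Let `(T', g')` be a chart of `X` at `x` (`hX`). Every `Z' ∈ T'` is `Z + Dg(y) Z` (`near_chart`), `‖Z‖ ≤ ‖Z'‖`; `W' = W + Dg(y) W ∈ T'`, `‖W‖ ≤ ‖W'‖`, `W' ≠ 0`. `hess_near`:
   `|hs T' g' c₁ v W' Z'| = |D2 (fn c₁ a₁' ∘ φ) y W Z| ≤ δ (1 + B₁) ‖W'‖ ‖Z'‖`. `small_eig` for the symmetric form `hs T' g' c₁ v` (a continuous bilinear form; `Chart.hs_symm`): `μ`,
   `|μ| ≤ δ (1 + B₁)`, `Z₀ ≠ 0`, `hs T' g' c₁ v Z₀ b = μ ⟪Z₀, b⟫`. Put `c₂ = c₁ - μ`, `a₂ = a₁' - μ • x`: `c₂ • x - a₂ = v` is normal: `Crit X c₂ a₂ x`, and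
   `hs T' g' c₂ v Z₀ b = hs T' g' c₁ v Z₀ b - μ ⟪Z₀, b⟫ = 0`: `¬ ND` (`Chart.nd_iff`). `‖a₂ - a₁‖ ≤ δ + δ (1 + B₁) (‖q‖ + 1)`.
-/

set_option autoImplicit false

open scoped Topology ContDiff RealInnerProductSpace
open Filter Set

namespace TotFoc

variable {E : Type*} [NormedAddCommGroup E] [InnerProductSpace ℝ E] [FiniteDimensional ℝ E]

theorem Fix_norm {T : Submodule ℝ E} {g : T → E} (hp : ∀ y, g y ∈ Tᗮ) (y Z : T) :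
    ‖Z‖ ≤ ‖(Z : E) + fderiv ℝ g y Z‖ := by
  have h0 : ⟪(Z : E), fderiv ℝ g y Z⟫ = 0 :=
    (Submodule.mem_orthogonal _ _).1 (fderiv_mem_orth hp y Z) Z Z.2
  have h1 := norm_add_sq_real (Z : E) (fderiv ℝ g y Z)
  rw [h0] at h1
  have h2 : ‖(Z : E)‖ ^ 2 ≤ ‖(Z : E) + fderiv ℝ g y Z‖ ^ 2 := by
    rw [h1]
    nlinarith [sq_nonneg ‖fderiv ℝ g y Z‖]
  exact (sq_le_sq₀ (norm_nonneg _) (norm_nonneg _)).1 h2

theorem Fix_bound {V F : Type*} [NormedAddCommGroup V] [NormedSpace ℝ V] [NormedAddCommGroup F]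
    [NormedSpace ℝ F] {g : V → F} {y₀ : V} (h : ContDiffAt ℝ 2 g y₀) :
    ∀ᶠ y in 𝓝 y₀, ‖D2 g y‖ ≤ ‖D2 g y₀‖ + 1 := by
  have h1 : ContinuousAt (D2 g) y₀ := (contDiffAt_D2 (m := 0) h (by norm_num)).continuousAt
  have h2 := (continuous_norm (E := V →L[ℝ] V →L[ℝ] F)).continuousAt (x := D2 g y₀)
  have h3 := h2.comp h1
  have h4 : ‖D2 g y₀‖ < ‖D2 g y₀‖ + 1 := by linarith
  filter_upwards [Filter.Tendsto.eventually_lt_const h4 h3] with y hy using hy.le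

theorem fixdeg {r : ℕ∞ω} (hr : ∞ ≤ r) {X : Set E} (hX : Loc r X) {q : E} {T : Submodule ℝ E}
    {g : T → E} (h : Chart r X q T g) :
    ∃ B : ℝ, 0 < B ∧ ∀ᶠ y in 𝓝 (0 : T), ∀ (c₁ : ℝ) (a₁ : E) (W : T) (δ : ℝ), W ≠ 0 →
      (∀ Z : T, |fderiv ℝ (fun y => fn c₁ a₁ (gr q T g y)) y Z| ≤ δ * ‖Z‖) →
      (∀ Z : T, |D2 (fun y => fn c₁ a₁ (gr q T g y)) y W Z| ≤ δ * ‖W‖ * ‖Z‖) →
      ∃ (c₂ : ℝ) (a₂ : E), |c₂ - c₁| ≤ B * δ ∧ ‖a₂ - a₁‖ ≤ B * δ ∧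
        Crit X c₂ a₂ (gr q T g y) ∧ ¬ ND r X c₂ a₂ (gr q T g y) ∧
        (Crit X c₁ a₁ (gr q T g y) → a₂ = a₁ + (c₂ - c₁) • gr q T g y) := by
  have h1 : (1 : ℕ∞ω) ≤ r := le_trans (by exact_mod_cast le_top) hr
  have h2 : (2 : ℕ∞ω) ≤ r := by
    refine le_trans ?_ hr
    have h3 : ((2 : ℕ∞) : ℕ∞ω) ≤ ((⊤ : ℕ∞) : ℕ∞ω) := WithTop.coe_le_coe.mpr le_top
    exact h3
  set B₁ : ℝ := ‖D2 g 0‖ + 1 with hB₁
  have hB₁0 : 0 ≤ B₁ := by positivity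
  have hbD : ∀ᶠ y in 𝓝 (0 : T), ‖D2 g y‖ ≤ B₁ := Fix_bound (h.smooth.of_le h2)
  have hbx : ∀ᶠ y in 𝓝 (0 : T), ‖gr q T g y‖ ≤ ‖q‖ + 1 := by
    have h3 := (h.tendsto_gr).norm
    have h4 : ‖q‖ < ‖q‖ + 1 := by linarith
    filter_upwards [Filter.Tendsto.eventually_lt_const h4 h3] with y hy using hy.le
  refine ⟨1 + (1 + B₁) * (‖q‖ + 1), by positivity, ?_⟩
  filter_upwards [h.near_cont (n := 2) (by exact_mod_cast h2), h.near_mem, h.near_tan h1,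
    h.near_orth h1, h.hess_near h2, h.near_chart h1, hbD, hbx] with y hcont hmem htan horth hhess
    hchart hD hx c₁ a₁ W δ hW hd1 hd2
  set x : E := gr q T g y with hxdef
  have hg2 : ContDiffAt ℝ 2 g y := by exact_mod_cast hcont.1
  have hgd : DifferentiableAt ℝ g y := hg2.differentiableAt (by norm_num)
  have hxX : x ∈ X := hmem.1
  obtain ⟨T', g', h', -⟩ := hX x hxX
  obtain ⟨hc1, hc2, -, -⟩ := hchart T' g' h'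
  have hWpos : 0 < ‖W‖ := norm_pos_iff.2 hW
  have hδ : 0 ≤ δ := by
    have h3 := (abs_nonneg _).trans (hd2 W)
    have h4 : 0 < ‖W‖ * ‖W‖ := mul_pos hWpos hWpos
    rw [mul_assoc] at h3
    exact nonneg_of_mul_nonneg_left h3 h4
  -- the tangential component
  set w : E := c₁ • x - a₁ with hw
  set τ : E := (tan X x).starProjection w with hτ
  have hτmem : τ ∈ tan X x := Submodule.starProjection_apply_mem _ _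
  have hvorth : w - τ ∈ (tan X x)ᗮ := Submodule.sub_starProjection_mem_orthogonal _
  obtain ⟨Z₀, hZ₀⟩ := (htan τ).1 hτmem
  have hin : ⟪w, τ⟫ = ‖τ‖ ^ 2 := by
    have h3 : ⟪w - τ, τ⟫ = 0 := by
      rw [real_inner_comm]
      exact (Submodule.mem_orthogonal _ _).1 hvorth τ hτmem
    rw [inner_sub_left, real_inner_self_eq_norm_sq] at h3
    linarith
  have hτle : ‖τ‖ ≤ δ := by
    have h3 : ‖τ‖ ^ 2 ≤ δ * ‖τ‖ := by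
      rw [← hin]
      have h4 := fderiv_fn_gr (p := q) c₁ a₁ hgd Z₀
      rw [← hxdef, ← hw, ← hZ₀] at h4
      rw [← h4]
      calc _ ≤ |fderiv ℝ (fun y => fn c₁ a₁ (gr q T g y)) y Z₀| := le_abs_self _
        _ ≤ δ * ‖Z₀‖ := hd1 Z₀
        _ ≤ δ * ‖τ‖ := by
          rw [hZ₀]
          exact mul_le_mul_of_nonneg_left (Fix_norm h.perp y Z₀) hδ
    rcases eq_or_lt_of_le (norm_nonneg τ) with h4 | h4
    · rw [← h4]; exact hδ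
    · nlinarith
  set a₁' : E := a₁ + τ with ha₁'
  have hv : c₁ • x - a₁' = w - τ := by rw [ha₁', hw]; abel
  have hcrit1 : Crit X c₁ a₁' x := ⟨hxX, by rw [hv]; exact hvorth⟩
  have hD2 : ∀ Z : T, |D2 (fun y => fn c₁ a₁' (gr q T g y)) y W Z| ≤
      δ * (1 + B₁) * ‖W‖ * ‖Z‖ := by
    intro Z
    have h3 := D2_fn_gr (p := q) c₁ a₁' hg2 W Z
    have h4 := D2_fn_gr (p := q) c₁ a₁ hg2 W Z
    rw [← hxdef] at h3 h4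
    have h5 : D2 (fun y => fn c₁ a₁' (gr q T g y)) y W Z =
        D2 (fun y => fn c₁ a₁ (gr q T g y)) y W Z - ⟪τ, D2 g y W Z⟫ := by
      rw [h3, h4, hv, ← hw, inner_sub_left]; ring
    rw [h5]
    have h6 : |⟪τ, D2 g y W Z⟫| ≤ δ * (B₁ * ‖W‖ * ‖Z‖) := by
      calc |⟪τ, D2 g y W Z⟫| ≤ ‖τ‖ * ‖D2 g y W Z‖ := abs_real_inner_le_norm _ _
        _ ≤ δ * (B₁ * ‖W‖ * ‖Z‖) := by
          apply mul_le_mul hτle _ (norm_nonneg _) hδ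
          calc ‖D2 g y W Z‖ ≤ ‖D2 g y‖ * ‖W‖ * ‖Z‖ := (D2 g y).le_opNorm₂ W Z
            _ ≤ B₁ * ‖W‖ * ‖Z‖ := by gcongr
    calc |D2 (fun y => fn c₁ a₁ (gr q T g y)) y W Z - ⟪τ, D2 g y W Z⟫|
        ≤ |D2 (fun y => fn c₁ a₁ (gr q T g y)) y W Z| + |⟪τ, D2 g y W Z⟫| := abs_sub _ _
      _ ≤ δ * ‖W‖ * ‖Z‖ + δ * (B₁ * ‖W‖ * ‖Z‖) := add_le_add (hd2 Z) h6
      _ = δ * (1 + B₁) * ‖W‖ * ‖Z‖ := by ring
  -- the symmetric form in the chart at `x`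
  set H : T' →L[ℝ] T' →L[ℝ] ℝ := D2 (fun y => fn c₁ a₁' (gr x T' g' y)) 0 with hH
  have hHs : ∀ Z Z' : T', H Z Z' = hs T' g' c₁ (c₁ • x - a₁') Z Z' := fun Z Z' => h'.hs_eq h2 _ _ Z Z'
  have hHsymm : ∀ a b, H a b = H b a := by
    intro a b
    rw [hHs, hHs]
    exact h'.hs_symm h2 _ _ _ _
  set W' : T' := ⟨(W : E) + fderiv ℝ g y W, hc1 W⟩ with hW'
  have hW'n : ‖W‖ ≤ ‖W'‖ := Fix_norm h.perp y W
  have hW'0 : W' ≠ 0 := by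
    rw [← norm_pos_iff]
    exact lt_of_lt_of_le hWpos hW'n
  have hb : ∀ b : T', |H W' b| ≤ (δ * (1 + B₁)) * ‖W'‖ * ‖b‖ := by
    intro b
    obtain ⟨Z, hZ⟩ := hc2 b b.2
    have h3 := hhess T' g' h' c₁ a₁' hcrit1 W Z W' b rfl hZ
    rw [hHs, ← h3]
    have h4 : ‖Z‖ ≤ ‖b‖ := by
      have h5 : ‖b‖ = ‖(Z : E) + fderiv ℝ g y Z‖ := by rw [← hZ]; rfl
      rw [h5]
      exact Fix_norm h.perp y Z
    calc _ ≤ δ * (1 + B₁) * ‖W‖ * ‖Z‖ := hD2 Z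
      _ ≤ δ * (1 + B₁) * ‖W'‖ * ‖b‖ := by gcongr
  obtain ⟨μ, hμ, Z₁, hZ₁, hZ₁e⟩ := small_eig hHsymm hW'0 hb
  have hv2 : (c₁ - μ) • x - (a₁' - μ • x) = c₁ • x - a₁' := by module
  refine ⟨c₁ - μ, a₁' - μ • x, ?_, ?_, ?_, ?_, ?_⟩
  · have h3 : c₁ - μ - c₁ = -μ := by ring
    rw [h3, abs_neg]
    calc |μ| ≤ δ * (1 + B₁) := hμ
      _ ≤ (1 + (1 + B₁) * (‖q‖ + 1)) * δ := by
        have h4 : 0 ≤ (1 + B₁) * ‖q‖ * δ := by positivity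
        nlinarith
  · have h3 : a₁' - μ • x - a₁ = τ - μ • x := by rw [ha₁']; abel
    rw [h3]
    calc ‖τ - μ • x‖ ≤ ‖τ‖ + ‖μ • x‖ := norm_sub_le _ _
      _ ≤ δ + δ * (1 + B₁) * (‖q‖ + 1) := by
        apply add_le_add hτle
        rw [norm_smul, Real.norm_eq_abs]
        exact mul_le_mul hμ hx (norm_nonneg _) (by positivity)
      _ = (1 + (1 + B₁) * (‖q‖ + 1)) * δ := by ring
  · refine ⟨hxX, ?_⟩
    rw [hv2]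
    exact hcrit1.2
  · intro hnd
    apply hZ₁
    apply (h'.nd_iff h1).1 hnd
    intro Z'
    rw [hv2]
    have h3 := hZ₁e Z'
    rw [hHs] at h3
    unfold hs at h3 ⊢
    have h4 : ⟪(Z₁ : E), (Z' : E)⟫ = ⟪Z₁, Z'⟫ := rfl
    rw [h4] at h3 ⊢
    linear_combination h3
  · intro hc
    have h3 : τ = 0 := by
      have h4 : ⟪w, τ⟫ = 0 := by
        rw [real_inner_comm]
        exact (Submodule.mem_orthogonal _ _).1 hc.2 τ hτmem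
      rw [h4] at hin
      exact norm_eq_zero.1 (pow_eq_zero_iff (two_ne_zero)|>.1 hin.symm)
    rw [ha₁', h3]
    module

end TotFoc
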