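import Pool.Agent.H49.TF.Crs.Kid

/-!
# PLM: the rescaled gradient of `u + ε v` near a critical manifold

`x = (ε, μ)`, `ζ ∈ V` has the components `y = P ζ ∈ K` and `w = ζ - P ζ ∈ Kᗮ` (`P = K.orthogonalProjectionOnto`, `(P ζ : V) = K.starProjection ζ`).
`pt x ζ = y + θ y + ε w`, `Gp x ζ = ε⁻¹ D(u + ε v(·, μ))(pt x ζ)`.
* `Gp_deriv`: chain rule; `pt x` has the derivative `η ↦ Pη + Dθ(y)(Pη) + ε (η - Pη)` at `ζ` (`ζ` near `w₀`, so `y` near `0`), `pt x ζ → 0` as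
  `(x, ζ) → ((0, μ₀), w₀)`; `v(·, μ)` is `C^2` at the point `pt x ζ`.
* `Gp_lim`: with `z = y + θ y` and `D2 u z (Pη + Dθ(y) Pη) = 0` (`kid_D2`, `y → 0`):
  `DGp η = ε⁻¹ (D2 u (z + ε w) - D2 u z) (Pη + Dθ(y) Pη) + D2 u (z + ε w) (η - Pη) + D2 v(·, μ) (z + ε w) (Pη + Dθ(y) Pη + ε (η - Pη))`. Now `D2 u` is strictly differentiable
  at `0` with derivative `D3 u 0` (`ContDiffAt.hasStrictFDerivAt`): `‖D2 u a - D2 u b - D3 u 0 (a - b)‖ ≤ η ‖a - b‖` for `a, b` near `0`; for `a = z + ε w`, `b = z`: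
  `ε⁻¹ (D2 u a - D2 u b) - D3 u 0 w → 0`. `w → w₀`, `Dθ(y) → Dθ(0) = 0`, `D2 u (z + ε w) → D2 u 0`, `D2 v(·, μ) (z + ε w) → D2 v(·, μ₀) 0`
  (`D2 (fun y => v (y, μ)) y'` is a continuous function of `(y', μ)` at `(0, μ₀)`: it is the `(inl, inl)` part of `D2 v (y', μ)`), `ε (η - Pη) → 0`. So
  `DGp → Alim` in the operator norm.
* `Gp_zero`: `pt x w₀ = θ 0 + ε w₀ = ε w₀`; `ε⁻¹ Du(ε w₀) → D2 u 0 w₀ = - Dv(·, μ₀)(0)` and `Dv(·, μ)(ε w₀) → Dv(·, μ₀)(0)`.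
-/

set_option autoImplicit false

open scoped Topology ContDiff RealInnerProductSpace
open Filter Set Asymptotics

namespace TotFoc

variable {V : Type*} [NormedAddCommGroup V] [InnerProductSpace ℝ V] [FiniteDimensional ℝ V]
  {M : Type*} [NormedAddCommGroup M] [NormedSpace ℝ M]

/-- the point with the coordinates `ζ` -/
noncomputable def pt (K : Submodule ℝ V) (θ : K → V) (ε : ℝ) (ζ : V) : V :=
  (K.orthogonalProjectionOnto ζ : V) + θ (K.orthogonalProjectionOnto ζ) +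
    ε • (ζ - (K.orthogonalProjectionOnto ζ : V))

/-- the rescaled derivative -/
noncomputable def Gp (K : Submodule ℝ V) (u : V → ℝ) (v : V × M → ℝ) (θ : K → V) (x : ℝ × M)
    (ζ : V) : V →L[ℝ] ℝ :=
  x.1⁻¹ • fderiv ℝ (fun y => u y + x.1 * v (y, x.2)) (pt K θ x.1 ζ)

/-- the derivative of `pt` -/
noncomputable def dpt (K : Submodule ℝ V) (θ : K → V) (ε : ℝ) (ζ : V) : V →L[ℝ] V :=
  K.subtypeL.comp K.orthogonalProjectionOnto +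
    (fderiv ℝ θ (K.orthogonalProjectionOnto ζ)).comp K.orthogonalProjectionOnto +
    ε • (ContinuousLinearMap.id ℝ V - K.subtypeL.comp K.orthogonalProjectionOnto)

/-- the limit of the derivative of `Gp` -/
noncomputable def Alim (K : Submodule ℝ V) (u v₀ : V → ℝ) (w₀ : V) : V →L[ℝ] V →L[ℝ] ℝ :=
  (D3 u 0 w₀ + D2 v₀ 0).comp (K.subtypeL.comp K.orthogonalProjectionOnto) +
    (D2 u 0).comp (ContinuousLinearMap.id ℝ V - K.subtypeL.comp K.orthogonalProjectionOnto)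

variable {K : Submodule ℝ V} {u : V → ℝ} {v : V × M → ℝ} {θ : K → V} {μ₀ : M} {w₀ : V}

/-! #### auxiliary lemmas -/

theorem Plim_comp {α V₁ V₂ V₃ : Type*} [NormedAddCommGroup V₁] [NormedSpace ℝ V₁]
    [NormedAddCommGroup V₂] [NormedSpace ℝ V₂] [NormedAddCommGroup V₃] [NormedSpace ℝ V₃]
    {l : Filter α} {A : α → V₂ →L[ℝ] V₃} {B : α → V₁ →L[ℝ] V₂} {a : V₂ →L[ℝ] V₃}
    {b : V₁ →L[ℝ] V₂} (hA : Tendsto A l (𝓝 a)) (hB : Tendsto B l (𝓝 b)) :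
    Tendsto (fun x => (A x).comp (B x)) l (𝓝 (a.comp b)) := by
  have h : Continuous fun p : (V₂ →L[ℝ] V₃) × (V₁ →L[ℝ] V₂) => p.1.comp p.2 :=
    isBoundedBilinearMap_comp.continuous
  exact (h.tendsto (a, b)).comp (hA.prodMk_nhds hB)

section slices

variable {W : Type*} [NormedAddCommGroup W] [NormedSpace ℝ W]

/-- precomposition with `y ↦ (y, 0)` -/
noncomputable def Plim_Phi (W M : Type*) [NormedAddCommGroup W] [NormedSpace ℝ W]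
    [NormedAddCommGroup M] [NormedSpace ℝ M] : (W × M →L[ℝ] ℝ) →L[ℝ] (W →L[ℝ] ℝ) :=
  (ContinuousLinearMap.compL ℝ W (W × M) ℝ).flip (ContinuousLinearMap.inl ℝ W M)

theorem Plim_slice1 {v : W × M → ℝ} {y : W} {μ : M} (h : DifferentiableAt ℝ v (y, μ)) :
    HasFDerivAt (fun y' => v (y', μ)) (Plim_Phi W M (fderiv ℝ v (y, μ))) y :=
  HasFDerivAt.comp (g := v) (f := fun y' => (y', μ)) y h.hasFDerivAt (hasFDerivAt_prodMk_left y μ)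

theorem Plim_slice_cont {v : W × M → ℝ} {y : W} {μ : M} {n : ℕ∞ω} (h : ContDiffAt ℝ n v (y, μ)) :
    ContDiffAt ℝ n (fun y' => v (y', μ)) y :=
  ContDiffAt.comp (g := v) (f := fun y' => (y', μ)) y h (contDiffAt_id.prodMk contDiffAt_const)

theorem Plim_slice2 {v : W × M → ℝ} {y : W} {μ : M} (h : ContDiffAt ℝ 2 v (y, μ)) :
    D2 (fun y' => v (y', μ)) y =
      (Plim_Phi W M).comp ((D2 v (y, μ)).comp (ContinuousLinearMap.inl ℝ W M)) := by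
  have h1 : fderiv ℝ (fun y' => v (y', μ)) =ᶠ[𝓝 y] fun y' => Plim_Phi W M (fderiv ℝ v (y', μ)) := by
    have h2 : ∀ᶠ w in 𝓝 (y, μ), ContDiffAt ℝ 2 v w := h.eventually (by simp)
    have h3 : Tendsto (fun y' : W => (y', μ)) (𝓝 y) (𝓝 (y, μ)) :=
      (continuous_id.prodMk continuous_const).tendsto y
    filter_upwards [h3.eventually h2] with y' hy'
    exact (Plim_slice1 (hy'.differentiableAt (by norm_num))).fderiv
  have h4 : HasFDerivAt (fun y' => fderiv ℝ v (y', μ))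
      ((D2 v (y, μ)).comp (ContinuousLinearMap.inl ℝ W M)) y :=
    HasFDerivAt.comp (g := fderiv ℝ v) (f := fun y' => (y', μ)) y (Calc_diff h).hasFDerivAt
      (hasFDerivAt_prodMk_left y μ)
  have h5 : HasFDerivAt (fun y' => Plim_Phi W M (fderiv ℝ v (y', μ)))
      ((Plim_Phi W M).comp ((D2 v (y, μ)).comp (ContinuousLinearMap.inl ℝ W M))) y :=
    HasFDerivAt.comp (g := Plim_Phi W M) y (Plim_Phi W M).hasFDerivAt h4
  unfold D2 at h5 ⊢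
  rw [h1.fderiv_eq, h5.fderiv]

theorem Plim_tendsto1 {α : Type*} {l : Filter α} {v : W × M → ℝ} {y₀ : W} {μ₀ : M}
    (h : ContDiffAt ℝ 2 v (y₀, μ₀)) {f : α → W} {m : α → M} (hf : Tendsto f l (𝓝 y₀))
    (hm : Tendsto m l (𝓝 μ₀)) :
    Tendsto (fun x => fderiv ℝ (fun y' => v (y', m x)) (f x)) l
      (𝓝 (fderiv ℝ (fun y' => v (y', μ₀)) y₀)) := by
  have h2 : ∀ᶠ w in 𝓝 (y₀, μ₀), ContDiffAt ℝ 2 v w := h.eventually (by simp)
  have hp := hf.prodMk_nhds hm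
  have h3 : (fun x => fderiv ℝ (fun y' => v (y', m x)) (f x)) =ᶠ[l]
      fun x => Plim_Phi W M (fderiv ℝ v (f x, m x)) := by
    filter_upwards [hp.eventually h2] with x hx
    exact (Plim_slice1 (hx.differentiableAt (by norm_num))).fderiv
  rw [(Plim_slice1 (h.differentiableAt (by norm_num))).fderiv]
  refine Tendsto.congr' h3.symm ?_
  have h4 : ContinuousAt (fderiv ℝ v) (y₀, μ₀) := (Calc_diff h).continuousAt
  exact ((Plim_Phi W M).continuous.tendsto _).comp (h4.tendsto.comp hp)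

theorem Plim_tendsto2 {α : Type*} {l : Filter α} {v : W × M → ℝ} {y₀ : W} {μ₀ : M}
    (h : ContDiffAt ℝ 3 v (y₀, μ₀)) {f : α → W} {m : α → M} (hf : Tendsto f l (𝓝 y₀))
    (hm : Tendsto m l (𝓝 μ₀)) :
    Tendsto (fun x => D2 (fun y' => v (y', m x)) (f x)) l
      (𝓝 (D2 (fun y' => v (y', μ₀)) y₀)) := by
  have h2 : ∀ᶠ w in 𝓝 (y₀, μ₀), ContDiffAt ℝ 3 v w := h.eventually (by simp)
  have hp := hf.prodMk_nhds hm
  have h3 : (fun x => D2 (fun y' => v (y', m x)) (f x)) =ᶠ[l]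
      fun x => (Plim_Phi W M).comp ((D2 v (f x, m x)).comp (ContinuousLinearMap.inl ℝ W M)) := by
    filter_upwards [hp.eventually h2] with x hx
    exact Plim_slice2 (hx.of_le (by norm_num))
  rw [Plim_slice2 (h.of_le (by norm_num))]
  refine Tendsto.congr' h3.symm ?_
  have h4 : ContinuousAt (D2 v) (y₀, μ₀) := (Calc_diff2 h).continuousAt
  exact Plim_comp tendsto_const_nhds (Plim_comp (h4.tendsto.comp hp) tendsto_const_nhds)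

end slices

/-- second derivative of `u + ε v` -/
theorem Plim_D2_add {W : Type*} [NormedAddCommGroup W] [NormedSpace ℝ W] {f g : W → ℝ} {y : W}
    (hf : ContDiffAt ℝ 2 f y) (hg : ContDiffAt ℝ 2 g y) (ε : ℝ) :
    D2 (fun y => f y + ε * g y) y = D2 f y + ε • D2 g y := by
  have h1 : fderiv ℝ (fun y => f y + ε * g y) =ᶠ[𝓝 y] fun y => fderiv ℝ f y + ε • fderiv ℝ g y := by
    filter_upwards [Calc_diff_nhds hf, Calc_diff_nhds hg] with z hz1 hz2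
    exact (hz1.hasFDerivAt.add (hz2.hasFDerivAt.const_mul ε)).fderiv
  unfold D2
  rw [h1.fderiv_eq]
  exact ((Calc_diff hf).hasFDerivAt.add ((Calc_diff hg).hasFDerivAt.const_smul ε)).fderiv

theorem Plim_D1_add {W : Type*} [NormedAddCommGroup W] [NormedSpace ℝ W] {f g : W → ℝ} {y : W}
    (hf : DifferentiableAt ℝ f y) (hg : DifferentiableAt ℝ g y) (ε : ℝ) :
    fderiv ℝ (fun y => f y + ε * g y) y = fderiv ℝ f y + ε • fderiv ℝ g y :=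
  (hf.hasFDerivAt.add (hg.hasFDerivAt.const_mul ε)).fderiv

theorem Plim_P0 (hw : w₀ ∈ Kᗮ) : K.orthogonalProjectionOnto w₀ = 0 :=
  Submodule.orthogonalProjectionOnto_apply_of_mem_orthogonal hw

theorem Plim_eps (μ₀ : M) (w₀ : V) :
    Tendsto (fun x : (ℝ × M) × V => x.1.1) ((𝓝[>] 0 ×ˢ 𝓝 μ₀) ×ˢ 𝓝 w₀) (𝓝[>] 0) :=
  tendsto_fst.comp tendsto_fst

theorem Plim_mu (μ₀ : M) (w₀ : V) :
    Tendsto (fun x : (ℝ × M) × V => x.1.2) ((𝓝[>] (0 : ℝ) ×ˢ 𝓝 μ₀) ×ˢ 𝓝 w₀) (𝓝 μ₀) :=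
  tendsto_snd.comp tendsto_fst

theorem Plim_zeta (μ₀ : M) (w₀ : V) :
    Tendsto (fun x : (ℝ × M) × V => x.2) ((𝓝[>] (0 : ℝ) ×ˢ 𝓝 μ₀) ×ˢ 𝓝 w₀) (𝓝 w₀) :=
  tendsto_snd

theorem Plim_y (μ₀ : M) (hw : w₀ ∈ Kᗮ) :
    Tendsto (fun x : (ℝ × M) × V => K.orthogonalProjectionOnto x.2)
      ((𝓝[>] (0 : ℝ) ×ˢ 𝓝 μ₀) ×ˢ 𝓝 w₀) (𝓝 0) := by
  have h := (K.orthogonalProjectionOnto.continuous.tendsto w₀).comp (Plim_zeta μ₀ w₀)
  rwa [Plim_P0 hw] at h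

theorem Plim_w (μ₀ : M) (hw : w₀ ∈ Kᗮ) :
    Tendsto (fun x : (ℝ × M) × V => x.2 - (K.orthogonalProjectionOnto x.2 : V))
      ((𝓝[>] (0 : ℝ) ×ˢ 𝓝 μ₀) ×ˢ 𝓝 w₀) (𝓝 w₀) := by
  have h := (Plim_zeta μ₀ w₀).sub ((K.subtypeL.continuous.tendsto 0).comp (Plim_y (K := K) μ₀ hw))
  rw [map_zero, sub_zero] at h
  exact h

theorem Plim_eps0 (μ₀ : M) (w₀ : V) :
    Tendsto (fun x : (ℝ × M) × V => x.1.1) ((𝓝[>] 0 ×ˢ 𝓝 μ₀) ×ˢ 𝓝 w₀) (𝓝 0) :=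
  (Plim_eps μ₀ w₀).mono_right nhdsWithin_le_nhds

theorem Plim_z (μ₀ : M) (hθ : ContDiffAt ℝ 2 θ 0) (h0 : θ 0 = 0) (hw : w₀ ∈ Kᗮ) :
    Tendsto (fun x : (ℝ × M) × V => (K.orthogonalProjectionOnto x.2 : V) +
      θ (K.orthogonalProjectionOnto x.2)) ((𝓝[>] (0 : ℝ) ×ˢ 𝓝 μ₀) ×ˢ 𝓝 w₀) (𝓝 0) := by
  have h1 := (K.subtypeL.continuous.tendsto 0).comp (Plim_y (K := K) μ₀ hw)
  have h2 := hθ.continuousAt.tendsto.comp (Plim_y (K := K) μ₀ hw)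
  rw [map_zero] at h1
  rw [h0] at h2
  have h3 := h1.add h2
  rw [add_zero] at h3
  exact h3

theorem Plim_pt (μ₀ : M) (hθ : ContDiffAt ℝ 2 θ 0) (h0 : θ 0 = 0) (hw : w₀ ∈ Kᗮ) :
    Tendsto (fun x : (ℝ × M) × V => pt K θ x.1.1 x.2) ((𝓝[>] (0 : ℝ) ×ˢ 𝓝 μ₀) ×ˢ 𝓝 w₀)
      (𝓝 0) := by
  have h3 := (Plim_z μ₀ hθ h0 hw).add ((Plim_eps0 μ₀ w₀).smul (Plim_w (K := K) μ₀ hw))
  rw [zero_smul, add_zero] at h3
  exact h3

theorem Plim_hasFDerivAt_pt {ε : ℝ} {ζ : V}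
    (h : DifferentiableAt ℝ θ (K.orthogonalProjectionOnto ζ)) :
    HasFDerivAt (pt K θ ε) (dpt K θ ε ζ) ζ := by
  have h1 : HasFDerivAt (fun ζ : V => (K.orthogonalProjectionOnto ζ : V))
      (K.subtypeL.comp K.orthogonalProjectionOnto) ζ :=
    (K.subtypeL.comp K.orthogonalProjectionOnto).hasFDerivAt
  have h2 : HasFDerivAt (fun ζ : V => θ (K.orthogonalProjectionOnto ζ))
      ((fderiv ℝ θ (K.orthogonalProjectionOnto ζ)).comp K.orthogonalProjectionOnto) ζ :=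
    HasFDerivAt.comp (g := θ) ζ h.hasFDerivAt K.orthogonalProjectionOnto.hasFDerivAt
  have h3 : HasFDerivAt (fun ζ : V => ζ - (K.orthogonalProjectionOnto ζ : V))
      (ContinuousLinearMap.id ℝ V - K.subtypeL.comp K.orthogonalProjectionOnto) ζ :=
    (hasFDerivAt_id ζ).sub h1
  exact (h1.add h2).add (h3.const_smul ε)

theorem Plim_evv {α : Type*} {l : Filter α} {n : ℕ} (hv : ContDiffAt ℝ n v (0, μ₀)) {f : α → V}
    {m : α → M} (hf : Tendsto f l (𝓝 0)) (hm : Tendsto m l (𝓝 μ₀)) :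
    ∀ᶠ x in l, ContDiffAt ℝ n (fun y => v (y, m x)) (f x) := by
  have h2 : ∀ᶠ w in 𝓝 ((0 : V), μ₀), ContDiffAt ℝ n v w := hv.eventually (by simp)
  filter_upwards [(hf.prodMk_nhds hm).eventually h2] with x hx
  exact Plim_slice_cont hx

theorem Gp_deriv (hu : ContDiffAt ℝ 4 u 0) (hv : ContDiffAt ℝ 3 v (0, μ₀))
    (hθ : ContDiffAt ℝ 2 θ 0) (h0 : θ 0 = 0) (hw : w₀ ∈ Kᗮ) :
    ∀ᶠ x : (ℝ × M) × V in (𝓝[>] 0 ×ˢ 𝓝 μ₀) ×ˢ 𝓝 w₀,
      HasFDerivAt (Gp K u v θ x.1)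
        (x.1.1⁻¹ • (D2 (fun y => u y + x.1.1 * v (y, x.1.2)) (pt K θ x.1.1 x.2)).comp
          (dpt K θ x.1.1 x.2)) x.2 := by
  have hu' : ∀ᶠ y in 𝓝 (0 : V), ContDiffAt ℝ 4 u y := hu.eventually (by simp)
  have hpt := Plim_pt (K := K) μ₀ hθ h0 hw
  have hv' := Plim_evv (n := 3) hv hpt (Plim_mu μ₀ w₀)
  filter_upwards [hpt.eventually hu', hv', (Plim_y (K := K) μ₀ hw).eventually (Calc_diff_nhds hθ)]
    with x k1 k2 k3
  have k4 : ContDiffAt ℝ 2 (fun y => u y + x.1.1 * v (y, x.1.2)) (pt K θ x.1.1 x.2) :=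
    (k1.of_le (by norm_num)).add (contDiffAt_const.mul (k2.of_le (by norm_num)))
  have k5 : HasFDerivAt (fun ζ => fderiv ℝ (fun y => u y + x.1.1 * v (y, x.1.2))
      (pt K θ x.1.1 ζ)) ((D2 (fun y => u y + x.1.1 * v (y, x.1.2)) (pt K θ x.1.1 x.2)).comp
          (dpt K θ x.1.1 x.2)) x.2 :=
    HasFDerivAt.comp (g := fderiv ℝ (fun y => u y + x.1.1 * v (y, x.1.2))) x.2
      (Calc_diff k4).hasFDerivAt (Plim_hasFDerivAt_pt k3)
  exact k5.const_smul x.1.1⁻¹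

theorem Plim_alg (A B : V →L[ℝ] V →L[ℝ] ℝ) (J Q2 : V →L[ℝ] V) {ε : ℝ} (hε : ε ≠ 0) :
    ε⁻¹ • A.comp J + A.comp Q2 + B.comp (J + ε • Q2) =
      ε⁻¹ • (A + ε • B).comp (J + ε • Q2) := by
  ext a b
  simp only [_root_.add_apply, _root_.smul_apply, ContinuousLinearMap.comp_apply, map_add,
    map_smul, smul_eq_mul]
  field_simp
  ring

theorem Plim_quot_gen {W F : Type*} [NormedAddCommGroup W] [NormedSpace ℝ W]
    [NormedAddCommGroup F] [NormedSpace ℝ F] {f : W → F} {f' : W →L[ℝ] F}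
    (hstr : HasStrictFDerivAt f f' 0) {α : Type*} {l : Filter α} {ε : α → ℝ} {a z w : α → W}
    (ha : Tendsto a l (𝓝 0)) (hz : Tendsto z l (𝓝 0)) {w₀ : W} (hw : Tendsto w l (𝓝 w₀))
    (hne : ∀ᶠ x in l, ε x ≠ 0) (hd : ∀ x, a x - z x = ε x • w x) :
    Tendsto (fun x => (ε x)⁻¹ • (f (a x) - f (z x))) l (𝓝 (f' w₀)) := by
  have h1 := hstr.isLittleO.comp_tendsto (ha.prodMk_nhds hz)
  have h3 := (isBigO_refl (fun x => (ε x)⁻¹) l).smul_isLittleO h1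
  have h4 : (fun x => (ε x)⁻¹ • ((fun p : W × W => p.1 - p.2) ∘ fun x => (a x, z x)) x) =ᶠ[l] w := by
    filter_upwards [hne] with x hx
    show (ε x)⁻¹ • (a x - z x) = w x
    rw [hd, smul_smul, inv_mul_cancel₀ hx, one_smul]
  have h6 := (h3.trans_eventuallyEq h4).trans_isBigO (hw.isBigO_one ℝ)
  rw [isLittleO_one_iff] at h6
  have h7 : Tendsto (fun x => f' (w x)) l (𝓝 (f' w₀)) := (f'.continuous.tendsto w₀).comp hw
  have h8 := h6.add h7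
  rw [zero_add] at h8
  refine Tendsto.congr' ?_ h8
  filter_upwards [hne] with x hx
  show (ε x)⁻¹ • (f (a x) - f (z x) - f' (a x - z x)) + f' (w x) = _
  rw [hd, smul_sub _ _ (f' _), map_smul, smul_smul, inv_mul_cancel₀ hx, one_smul,
    sub_add_cancel]

theorem Plim_quot (hu : ContDiffAt ℝ 4 u 0) (hθ : ContDiffAt ℝ 2 θ 0) (h0 : θ 0 = 0)
    (hw : w₀ ∈ Kᗮ) (μ₀ : M) :
    Tendsto (fun x : (ℝ × M) × V => x.1.1⁻¹ • (D2 u (pt K θ x.1.1 x.2) -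
      D2 u ((K.orthogonalProjectionOnto x.2 : V) + θ (K.orthogonalProjectionOnto x.2))))
      ((𝓝[>] 0 ×ˢ 𝓝 μ₀) ×ˢ 𝓝 w₀) (𝓝 (D3 u 0 w₀)) := by
  have hstr : HasStrictFDerivAt (D2 u) (D3 u 0) 0 :=
    (contDiffAt_D2 (m := 2) hu (by norm_num)).hasStrictFDerivAt (by norm_num)
  have hne : ∀ᶠ x : (ℝ × M) × V in (𝓝[>] 0 ×ˢ 𝓝 μ₀) ×ˢ 𝓝 w₀, x.1.1 ≠ 0 := by
    have h2 : ∀ᶠ t : ℝ in 𝓝[>] (0 : ℝ), t ≠ 0 := by
      filter_upwards [self_mem_nhdsWithin] with t ht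
      exact ne_of_gt ht
    exact (Plim_eps μ₀ w₀).eventually h2
  have hdiff : ∀ x : (ℝ × M) × V, pt K θ x.1.1 x.2 -
      ((K.orthogonalProjectionOnto x.2 : V) + θ (K.orthogonalProjectionOnto x.2)) =
      x.1.1 • (x.2 - (K.orthogonalProjectionOnto x.2 : V)) := by
    intro x
    unfold pt
    abel
  exact Plim_quot_gen (W := V) (F := V →L[ℝ] V →L[ℝ] ℝ) hstr (Plim_pt (K := K) μ₀ hθ h0 hw)
    (Plim_z (K := K) μ₀ hθ h0 hw) (Plim_w (K := K) μ₀ hw) hne hdiff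

theorem Gp_lim (hu : ContDiffAt ℝ 4 u 0) (hv : ContDiffAt ℝ 3 v (0, μ₀))
    (hθ : ContDiffAt ℝ 2 θ 0) (hp : ∀ y, θ y ∈ Kᗮ) (h0 : θ 0 = 0)
    (hc : ∀ᶠ y : K in 𝓝 0, fderiv ℝ u ((y : V) + θ y) = 0)
    (hK : ∀ z, (∀ z', D2 u 0 z z' = 0) → z ∈ K) (hw : w₀ ∈ Kᗮ) :
    Tendsto (fun x : (ℝ × M) × V =>
      x.1.1⁻¹ • (D2 (fun y => u y + x.1.1 * v (y, x.1.2)) (pt K θ x.1.1 x.2)).comp
          (dpt K θ x.1.1 x.2)) ((𝓝[>] 0 ×ˢ 𝓝 μ₀) ×ˢ 𝓝 w₀)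
      (𝓝 (Alim K u (fun y => v (y, μ₀)) w₀)) := by
  have hu3 : ContDiffAt ℝ 3 u 0 := hu.of_le (by norm_num)
  have hu' : ∀ᶠ y in 𝓝 (0 : V), ContDiffAt ℝ 4 u y := hu.eventually (by simp)
  have hpt := Plim_pt (K := K) μ₀ hθ h0 hw
  have hv' := Plim_evv (n := 3) hv hpt (Plim_mu μ₀ w₀)
  have hdθ := kid_dtheta hu3 hθ hp h0 hc hK
  have hkid := (Plim_y (K := K) μ₀ hw).eventually (kid_D2 hu3 hθ h0 hc)
  have hne : ∀ᶠ x : (ℝ × M) × V in (𝓝[>] 0 ×ˢ 𝓝 μ₀) ×ˢ 𝓝 w₀, x.1.1 ≠ 0 := by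
    have h2 : ∀ᶠ t : ℝ in 𝓝[>] (0 : ℝ), t ≠ 0 := by
      filter_upwards [self_mem_nhdsWithin] with t ht
      exact ne_of_gt ht
    exact (Plim_eps μ₀ w₀).eventually h2
  -- the limits of the parts
  have lJ : Tendsto (fun x : (ℝ × M) × V => K.subtypeL.comp K.orthogonalProjectionOnto +
      (fderiv ℝ θ (K.orthogonalProjectionOnto x.2)).comp K.orthogonalProjectionOnto)
      ((𝓝[>] 0 ×ˢ 𝓝 μ₀) ×ˢ 𝓝 w₀) (𝓝 (K.subtypeL.comp K.orthogonalProjectionOnto)) := by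
    have h1 := (Calc_diff hθ).continuousAt.tendsto.comp (Plim_y (K := K) μ₀ hw)
    rw [hdθ] at h1
    have h2 : Tendsto (fun x : (ℝ × M) × V =>
        (fderiv ℝ θ (K.orthogonalProjectionOnto x.2)).comp K.orthogonalProjectionOnto)
        ((𝓝[>] 0 ×ˢ 𝓝 μ₀) ×ˢ 𝓝 w₀) (𝓝 ((0 : K →L[ℝ] V).comp K.orthogonalProjectionOnto)) :=
      Plim_comp h1 tendsto_const_nhds
    rw [ContinuousLinearMap.zero_comp] at h2
    have h3 := (tendsto_const_nhds (x := K.subtypeL.comp K.orthogonalProjectionOnto)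
      (f := (𝓝[>] (0 : ℝ) ×ˢ 𝓝 μ₀) ×ˢ 𝓝 w₀)).add h2
    rw [add_zero] at h3
    exact h3
  have ldpt : Tendsto (fun x : (ℝ × M) × V => dpt K θ x.1.1 x.2)
      ((𝓝[>] 0 ×ˢ 𝓝 μ₀) ×ˢ 𝓝 w₀) (𝓝 (K.subtypeL.comp K.orthogonalProjectionOnto)) := by
    have h3 := lJ.add ((Plim_eps0 μ₀ w₀).smul (tendsto_const_nhds
      (x := ContinuousLinearMap.id ℝ V - K.subtypeL.comp K.orthogonalProjectionOnto)))
    rw [zero_smul, add_zero] at h3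
    exact h3
  have lq := Plim_quot hu hθ h0 hw μ₀
  have lu2 : Tendsto (fun x : (ℝ × M) × V => D2 u (pt K θ x.1.1 x.2))
      ((𝓝[>] 0 ×ˢ 𝓝 μ₀) ×ˢ 𝓝 w₀) (𝓝 (D2 u 0)) :=
    (Calc_diff2 hu3).continuousAt.tendsto.comp hpt
  have lv2 := Plim_tendsto2 hv hpt (Plim_mu μ₀ w₀)
  have hsum := ((Plim_comp lq lJ).add (Plim_comp lu2 (tendsto_const_nhds
      (x := ContinuousLinearMap.id ℝ V - K.subtypeL.comp K.orthogonalProjectionOnto)))).add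
      (Plim_comp lv2 ldpt)
  have hlim : (D3 u 0 w₀).comp (K.subtypeL.comp K.orthogonalProjectionOnto) +
      (D2 u 0).comp (ContinuousLinearMap.id ℝ V - K.subtypeL.comp K.orthogonalProjectionOnto) +
      (D2 (fun y => v (y, μ₀)) 0).comp (K.subtypeL.comp K.orthogonalProjectionOnto) =
      Alim K u (fun y => v (y, μ₀)) w₀ := by
    unfold Alim
    rw [ContinuousLinearMap.add_comp]
    abel
  rw [hlim] at hsum
  refine Tendsto.congr' ?_ hsum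
  filter_upwards [hne, hpt.eventually hu', hv', hkid] with x k1 k2 k3 k4
  have e1 : D2 (fun y => u y + x.1.1 * v (y, x.1.2)) (pt K θ x.1.1 x.2) =
      D2 u (pt K θ x.1.1 x.2) + x.1.1 • D2 (fun y => v (y, x.1.2)) (pt K θ x.1.1 x.2) :=
    Plim_D2_add (k2.of_le (by norm_num)) (k3.of_le (by norm_num)) _
  have e2 : (D2 u ((K.orthogonalProjectionOnto x.2 : V) + θ (K.orthogonalProjectionOnto x.2))).comp
      (K.subtypeL.comp K.orthogonalProjectionOnto +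
      (fderiv ℝ θ (K.orthogonalProjectionOnto x.2)).comp K.orthogonalProjectionOnto) = 0 := by
    ext Z
    have := k4 (K.orthogonalProjectionOnto Z)
    show D2 u ((K.orthogonalProjectionOnto x.2 : V) + θ (K.orthogonalProjectionOnto x.2))
      ((K.orthogonalProjectionOnto Z : V) +
        fderiv ℝ θ (K.orthogonalProjectionOnto x.2) (K.orthogonalProjectionOnto Z)) _ = _
    rw [this]
    rfl
  rw [e1]
  set A := D2 u (pt K θ x.1.1 x.2)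
  set B := D2 (fun y => v (y, x.1.2)) (pt K θ x.1.1 x.2)
  set Z := D2 u ((K.orthogonalProjectionOnto x.2 : V) + θ (K.orthogonalProjectionOnto x.2))
  set J := K.subtypeL.comp K.orthogonalProjectionOnto +
      (fderiv ℝ θ (K.orthogonalProjectionOnto x.2)).comp K.orthogonalProjectionOnto with hJ
  set Q2 := ContinuousLinearMap.id ℝ V - K.subtypeL.comp K.orthogonalProjectionOnto with hQ
  have e3 : dpt K θ x.1.1 x.2 = J + x.1.1 • Q2 := rfl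
  rw [e3]
  have e4 : (x.1.1⁻¹ • (A - Z)).comp J = x.1.1⁻¹ • A.comp J := by
    rw [ContinuousLinearMap.smul_comp, ContinuousLinearMap.sub_comp, e2, sub_zero]
  rw [e4]
  exact Plim_alg A B J Q2 k1

theorem Gp_zero (hu : ContDiffAt ℝ 4 u 0) (hv : ContDiffAt ℝ 3 v (0, μ₀)) (h0 : θ 0 = 0)
    (hu1 : fderiv ℝ u 0 = 0) (hw : w₀ ∈ Kᗮ)
    (hw' : ∀ z', D2 u 0 w₀ z' = -fderiv ℝ (fun y => v (y, μ₀)) 0 z') :
    Tendsto (fun x : ℝ × M => Gp K u v θ x w₀) (𝓝[>] 0 ×ˢ 𝓝 μ₀) (𝓝 0) := by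
  have hfst : Tendsto (fun x : ℝ × M => x.1) (𝓝[>] 0 ×ˢ 𝓝 μ₀) (𝓝[>] 0) := tendsto_fst
  have hsnd : Tendsto (fun x : ℝ × M => x.2) (𝓝[>] (0 : ℝ) ×ˢ 𝓝 μ₀) (𝓝 μ₀) := tendsto_snd
  have hf0 : Tendsto (fun x : ℝ × M => x.1) (𝓝[>] 0 ×ˢ 𝓝 μ₀) (𝓝 0) :=
    hfst.mono_right nhdsWithin_le_nhds
  have hew : Tendsto (fun x : ℝ × M => x.1 • w₀) (𝓝[>] 0 ×ˢ 𝓝 μ₀) (𝓝 0) := by
    have := hf0.smul_const w₀
    rwa [zero_smul] at this
  have hptw : ∀ ε : ℝ, pt K θ ε w₀ = ε • w₀ := by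
    intro ε
    unfold pt
    rw [Plim_P0 hw, h0]
    simp
  have hu2 : ContDiffAt ℝ 2 u 0 := hu.of_le (by norm_num)
  have hu' : ∀ᶠ y in 𝓝 (0 : V), ContDiffAt ℝ 4 u y := hu.eventually (by simp)
  have hv' := Plim_evv (n := 3) hv hew hsnd
  have hd : HasDerivAt (fun t : ℝ => fderiv ℝ u (t • w₀)) (D2 u 0 w₀) 0 := by
    have h1 : HasFDerivAt (fderiv ℝ u) (D2 u 0) ((0 : ℝ) • w₀) := by
      rw [zero_smul]
      exact (Calc_diff hu2).hasFDerivAt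
    have h2 : HasDerivAt (fun t : ℝ => t • w₀) ((1 : ℝ) • w₀) 0 :=
      (hasDerivAt_id (0 : ℝ)).smul_const w₀
    rw [one_smul] at h2
    exact h1.comp_hasDerivAt (0 : ℝ) h2
  rw [hasDerivAt_iff_tendsto_slope_zero] at hd
  have hd2 : Tendsto (fun t : ℝ => t⁻¹ • fderiv ℝ u (t • w₀)) (𝓝[>] 0) (𝓝 (D2 u 0 w₀)) := by
    have h3 : 𝓝[>] (0 : ℝ) ≤ 𝓝[≠] 0 := nhdsWithin_mono 0 fun t ht => ne_of_gt ht
    refine (hd.mono_left h3).congr fun t => ?_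
    rw [zero_add, zero_smul, hu1, sub_zero]
  have h4 := hd2.comp hfst
  have h5 := Plim_tendsto1 (hv.of_le (by norm_num)) hew hsnd
  have h6 := h4.add h5
  have h7 : D2 u 0 w₀ + fderiv ℝ (fun y' => v (y', μ₀)) 0 = 0 := by
    ext z'
    show D2 u 0 w₀ z' + fderiv ℝ (fun y' => v (y', μ₀)) 0 z' = 0
    rw [hw' z', neg_add_cancel]
  rw [h7] at h6
  refine Tendsto.congr' ?_ h6
  have hne : ∀ᶠ x : ℝ × M in 𝓝[>] 0 ×ˢ 𝓝 μ₀, x.1 ≠ 0 := by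
    have h2 : ∀ᶠ t : ℝ in 𝓝[>] (0 : ℝ), t ≠ 0 := by
      filter_upwards [self_mem_nhdsWithin] with t ht
      exact ne_of_gt ht
    exact hfst.eventually h2
  filter_upwards [hne, hew.eventually hu', hv'] with x k1 k2 k3
  have e1 : fderiv ℝ (fun y => u y + x.1 * v (y, x.2)) (x.1 • w₀) =
      fderiv ℝ u (x.1 • w₀) + x.1 • fderiv ℝ (fun y => v (y, x.2)) (x.1 • w₀) :=
    Plim_D1_add (k2.differentiableAt (by norm_num)) (k3.differentiableAt (by norm_num)) _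
  unfold Gp
  rw [hptw, e1, smul_add, smul_smul, inv_mul_cancel₀ k1, one_smul]
  rfl

end TotFoc
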