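import Mathlib

/-!
# ZER: zeros of a family of maps which is close to an invertible linear map

Let `N = ‖A.symm‖`, `c > 0` with `c * (N + 1) < 1 / 2` (as `ℝ≥0`). By `hd`, `hA` (a set of the product filter contains a product,
`Filter.mem_prod_iff` / `Filter.eventually_prod_iff`; shrink to a closed ball) there are `r > 0` (as small as we like, `closedBall b r ⊆ U`) and a set of
indices in `l` for which `G i` is differentiable at all points of `closedBall b r` and `‖fderiv (G i) x - A‖ ≤ c` there. Then `G i` is approximated by `A` on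
`closedBall b r` with constant `c`: `Convex.norm_image_sub_le_of_norm_fderiv_le'` (or `Convex.norm_image_sub_le_of_norm_hasFDerivWithin_le'`) on the convex set
`closedBall b r` gives `ApproximatesLinearOn (G i) A (closedBall b r) c`. `ApproximatesLinearOn.surjOn_closedBall_of_nonlinearRightInverse` (with
`A.toNonlinearRightInverse`, whose `nnnorm` is `‖A.symm‖₊`) shows that `G i` maps `closedBall b r` onto a set containing the closed ball with centre `G i b` and
radius `(‖A.symm‖⁻¹ - c) * r` (if `‖A.symm‖ = 0` then `P` is trivial, all statements are clear: or treat the case `P` subsingleton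
separately; then `Q` is subsingleton as well). This radius is a fixed positive number and `G i b → 0`, so eventually `0` is in this ball. Injectivity of `fderiv (G i) x`: if `D Z = 0` then
`‖A Z‖ = ‖(D - A) Z‖ ≤ c ‖Z‖ ≤ c N ‖A Z‖ ≤ ‖A Z‖ / 2`, so `A Z = 0`, `Z = 0`.
-/

set_option autoImplicit false

open scoped Topology
open Filter Set Metric

namespace TotFoc

theorem zer {ι P Q : Type*} [NormedAddCommGroup P] [NormedSpace ℝ P] [CompleteSpace P]
    [NormedAddCommGroup Q] [NormedSpace ℝ Q] {l : Filter ι} {G : ι → P → Q}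
    {b : P} {A : P ≃L[ℝ] Q}
    (hd : ∀ᶠ x : ι × P in l ×ˢ 𝓝 b, DifferentiableAt ℝ (G x.1) x.2)
    (hA : Tendsto (fun x : ι × P => fderiv ℝ (G x.1) x.2) (l ×ˢ 𝓝 b) (𝓝 (A : P →L[ℝ] Q)))
    (h0 : Tendsto (fun i => G i b) l (𝓝 0)) {U : Set P} (hU : U ∈ 𝓝 b) :
    ∀ᶠ i in l, ∃ x ∈ U, G i x = 0 ∧ ∀ Z, fderiv ℝ (G i) x Z = 0 → Z = 0 := by
  rcases A.subsingleton_or_norm_symm_pos with hs | hN
  · -- trivial space
    have hQ : ∀ z : Q, z = 0 := fun z => by
      rw [← A.apply_symm_apply z, Subsingleton.elim (A.symm z) 0, map_zero]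
    exact Eventually.of_forall fun i => ⟨b, mem_of_mem_nhds hU, hQ _, fun Z _ => Subsingleton.elim _ _⟩
  · set N : ℝ := ‖(A.symm : Q →L[ℝ] P)‖ with hNdef
    set c : ℝ := N⁻¹ / 2 with hc
    have hNi : 0 < N⁻¹ := inv_pos.2 hN
    have hc0 : 0 < c := by rw [hc]; linarith
    have hA' : ∀ᶠ x : ι × P in l ×ˢ 𝓝 b, ‖fderiv ℝ (G x.1) x.2 - (A : P →L[ℝ] Q)‖ ≤ c := by
      have h1 : Metric.closedBall (A : P →L[ℝ] Q) c ∈ 𝓝 (A : P →L[ℝ] Q) :=
        Metric.closedBall_mem_nhds _ hc0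
      filter_upwards [hA h1] with x hx
      have hx' : dist (fderiv ℝ (G x.1) x.2) (A : P →L[ℝ] Q) ≤ c := hx
      rwa [dist_eq_norm] at hx'
    obtain ⟨pa, hpa, pb, hpb, hpab⟩ := Filter.eventually_prod_iff.1 (hd.and hA')
    obtain ⟨r, hr, hrs⟩ := Metric.nhds_basis_closedBall.mem_iff.1 (Filter.inter_mem hpb hU)
    have hR : 0 < (N⁻¹ - c) * r := mul_pos (by rw [hc]; linarith) hr
    have h0' : ∀ᶠ i in l, ‖G i b‖ ≤ (N⁻¹ - c) * r := by
      have h1 := (tendsto_norm_zero.comp h0).eventually (gt_mem_nhds hR)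
      filter_upwards [h1] with i hi using le_of_lt hi
    filter_upwards [hpa, h0'] with i hi hi0
    have hdi : ∀ x ∈ closedBall b r, DifferentiableAt ℝ (G i) x := fun x hx =>
      (hpab hi (hrs hx).1).1
    have hbi : ∀ x ∈ closedBall b r, ‖fderiv ℝ (G i) x - (A : P →L[ℝ] Q)‖ ≤ c := fun x hx =>
      (hpab hi (hrs hx).1).2
    have happ : ApproximatesLinearOn (G i) (A : P →L[ℝ] Q) (closedBall b r) ⟨c, hc0.le⟩ := by
      intro x hx y hy
      exact (convex_closedBall b r).norm_image_sub_le_of_norm_fderiv_le' hdi hbi hy hx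
    have hsurj := happ.surjOn_closedBall_of_nonlinearRightInverse A.toNonlinearRightInverse
      (b := b) hr.le Subset.rfl
    have hmem : (0 : Q) ∈ closedBall (G i b)
        ((((A.toNonlinearRightInverse).nnnorm : ℝ)⁻¹ - ((⟨c, hc0.le⟩ : NNReal) : ℝ)) * r) := by
      rw [mem_closedBall, dist_eq_norm, zero_sub, norm_neg]
      exact hi0
    obtain ⟨x, hx, hx0⟩ := hsurj hmem
    refine ⟨x, (hrs hx).2, hx0, ?_⟩
    intro Z hZ
    have h1 : ‖(A : P →L[ℝ] Q) Z‖ ≤ c * ‖Z‖ := by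
      have h2 : (A : P →L[ℝ] Q) Z = -((fderiv ℝ (G i) x - (A : P →L[ℝ] Q)) Z) := by
        rw [ContinuousLinearMap.sub_apply, hZ]; simp
      rw [h2, norm_neg]
      exact ((fderiv ℝ (G i) x - (A : P →L[ℝ] Q)).le_opNorm Z).trans
        (mul_le_mul_of_nonneg_right (hbi x hx) (norm_nonneg _))
    have h3 : ‖Z‖ ≤ N * ‖(A : P →L[ℝ] Q) Z‖ := by
      have h4 : Z = (A.symm : Q →L[ℝ] P) ((A : P →L[ℝ] Q) Z) := by simp
      conv_lhs => rw [h4]
      exact (A.symm : Q →L[ℝ] P).le_opNorm _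
    have h5 : N * (c * ‖Z‖) = ‖Z‖ / 2 := by
      rw [hc]
      field_simp
    have h6 : N * ‖(A : P →L[ℝ] Q) Z‖ ≤ N * (c * ‖Z‖) := mul_le_mul_of_nonneg_left h1 hN.le
    have h7 : ‖Z‖ ≤ 0 := by linarith
    exact norm_eq_zero.1 (le_antisymm h7 (norm_nonneg _))

end TotFoc
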