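import Pool.Agent.H49.TF.Crs.Plim
import Pool.Agent.H49.TF.Crs.Zer
import Pool.Agent.H49.TF.Crs.Eig

/-!
# PRT: nondegenerate critical points of `u + ε v` near a critical manifold

`v₀ = v (·, μ₀)`. `kid_F1`: `Dv₀(0)` vanishes on `K`; `slv`: `w₀ ∈ Kᗮ` with `D2 u 0 w₀ = -Dv₀(0)`. `Alim K u v₀ w₀ : V → V^*` is injective: let `Alim η = 0`,
`Y = P η ∈ K`, `W = η - Y ∈ Kᗮ`: `D3 u 0 w₀ Y + D2 v₀ 0 Y + D2 u 0 W = 0`. Evaluate at `Z ∈ K`: `D2 u 0 W Z = D2 u 0 Z W = 0` (`kid_ker`), and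
`D3 u 0 w₀ Y Z = D3 u 0 Y Z w₀ = -D2 u 0 (D2 θ 0 Y Z) w₀ = -D2 u 0 w₀ (D2 θ 0 Y Z) = Dv₀(0) (D2 θ 0 Y Z)` (`kid_D3` and symmetries), so by `kid_F2`
`D2 F 0 Y Z = 0` for all `Z ∈ K`, so `Y = 0` (`hnd`), then `D2 u 0 W = 0`, `W ∈ K ⊓ Kᗮ`, `W = 0`. By the dimensions
(`finrank (V →L[ℝ] ℝ) = finrank V`: `Subspace.dual_finrank_eq`, `LinearMap.toContinuousLinearMap`; or compose with `toDual.symm : V →L ℝ → V`) it is a continuous linear equivalence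
`A : V ≃L[ℝ] (V →L[ℝ] ℝ)` (`LinearEquiv.ofInjectiveEndo` / `LinearMap.linearEquivOfInjective`, `LinearEquiv.toContinuousLinearEquiv`). Apply `zer` to `G = Gp K u v θ`, `b = w₀`, `l = 𝓝[>] 0 ×ˢ 𝓝 μ₀`
(`hd`, `hA` from `Gp_deriv`, `Gp_lim`; `HasFDerivAt.fderiv`; `Gp_zero`), with a neighbourhood of `w₀`, and intersect with the event that `Gp_deriv` holds and that
`pt K θ ε ζ ∈ U` (`pt → 0` along `(𝓝[>] 0 ×ˢ 𝓝 μ₀) ×ˢ 𝓝 w₀`; use `Filter.eventually_prod_iff` / `Filter.Eventually.curry` to find a neighbourhood `N` of `w₀` and an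
event in `l` such that all this holds for the event times `N`). For `ζ` with `Gp x ζ = 0` and `ε > 0` the point `z = pt K θ ε ζ` is critical.
Nondegenerate: let `D2 (..) z W' = 0`. Put `Y' = P W'` and solve `dpt K θ ε ζ η = W'`: `η = Y' + ε⁻¹ (W' - Y' - Dθ(y) Y')` where `Dθ(y) Y' ∈ Kᗮ`
(so `P η = Y'`; `Dθ(y) Y' ∈ Kᗮ` for `y` near `0`: apply the argument of `kid_perp` at `y`, or note that `θ` is differentiable near `0` with values in `Kᗮ`). Then the derivative of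
`Gp x` at `ζ` in the direction `η` is `ε⁻¹ D2 (..) z W' = 0`, so `η = 0` by `zer`, `W' = dpt η = 0`.
-/

set_option autoImplicit false

open scoped Topology ContDiff RealInnerProductSpace
open Filter Set

namespace TotFoc

variable {V : Type*} [NormedAddCommGroup V] [InnerProductSpace ℝ V] [FiniteDimensional ℝ V]
  {M : Type*} [NormedAddCommGroup M] [NormedSpace ℝ M]

theorem Alim_inj {K : Submodule ℝ V} {u v₀ : V → ℝ} {θ : K → V} {w₀ : V}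
    (hu : ContDiffAt ℝ 4 u 0) (hv : ContDiffAt ℝ 3 v₀ 0) (hθ : ContDiffAt ℝ 2 θ 0)
    (hp : ∀ y, θ y ∈ Kᗮ) (h0 : θ 0 = 0)
    (hc : ∀ᶠ y : K in 𝓝 0, fderiv ℝ u ((y : V) + θ y) = 0)
    (hK : ∀ z, (∀ z', D2 u 0 z z' = 0) → z ∈ K) (hw : w₀ ∈ Kᗮ)
    (hw' : ∀ z', D2 u 0 w₀ z' = -fderiv ℝ v₀ 0 z')
    (hnd : ∀ Y : K, (∀ Z : K, D2 (fun y : K => v₀ ((y : V) + θ y)) 0 Y Z = 0) → Y = 0) (η : V)
    (h : Alim K u v₀ w₀ η = 0) : η = 0 := by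
  have hu3 : ContDiffAt ℝ 3 u 0 := hu.of_le (by norm_num)
  have hu2 : ContDiffAt ℝ 2 u 0 := hu.of_le (by norm_num)
  have hv2 : ContDiffAt ℝ 2 v₀ 0 := hv.of_le (by norm_num)
  have hker := kid_ker hu3 hθ hp h0 hc hK
  have hdt := kid_dtheta hu3 hθ hp h0 hc hK
  set Y : K := K.orthogonalProjectionOnto η with hY
  set W : V := η - (Y : V) with hW
  have hWp : W ∈ Kᗮ := K.sub_starProjection_mem_orthogonal η
  have hev : ∀ z : V, D3 u 0 w₀ Y z + D2 v₀ 0 Y z + D2 u 0 W z = 0 := by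
    intro z
    have h1 := congrArg (fun L : V →L[ℝ] ℝ => L z) h
    exact h1
  have hY0 : Y = 0 := by
    apply hnd
    intro Z
    rw [kid_F2 hv2 hθ h0 hdt]
    have h1 := hev Z
    have h2 : D2 u 0 W Z = 0 := by
      rw [D2_symm hu2]
      exact (hker Z).2 Z.2 W
    have h3 : D3 u 0 w₀ Y Z = fderiv ℝ v₀ 0 (D2 θ 0 Y Z) := by
      rw [D3_symm_left hu3, D3_symm_right hu3]
      have h4 := kid_D3 hu3 hθ hp h0 hc hK Y Z w₀
      rw [D2_symm hu2, hw'] at h4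
      linarith
    rw [h2, h3] at h1
    linarith
  have hW0 : W = 0 := by
    have h5 : W ∈ K := by
      apply hK
      intro z
      have h1 := hev z
      rw [hY0] at h1
      simpa using h1
    have h6 : W ∈ K ⊓ Kᗮ := ⟨h5, hWp⟩
    rw [K.inf_orthogonal_eq_bot] at h6
    simpa using h6
  have h7 : η = (Y : V) + W := by rw [hW]; abel
  rw [h7, hW0, hY0]
  simp

omit [FiniteDimensional ℝ V] in
theorem Prt_perp {K : Submodule ℝ V} {θ : K → V} (hp : ∀ y, θ y ∈ Kᗮ) (y Y : K) :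
    fderiv ℝ θ y Y ∈ Kᗮ := by
  by_cases hd : DifferentiableAt ℝ θ y
  · rw [Submodule.mem_orthogonal]
    intro k hk
    have h1 : HasFDerivAt (fun y => (innerSL ℝ k) (θ y)) ((innerSL ℝ k).comp (fderiv ℝ θ y)) y :=
      (innerSL ℝ k).hasFDerivAt.comp y hd.hasFDerivAt
    have h2 : (fun y => (innerSL ℝ k) (θ y)) = fun _ => (0 : ℝ) := by
      funext x
      rw [innerSL_apply_apply]
      exact (Submodule.mem_orthogonal K (θ x)).1 (hp x) k hk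
    rw [h2] at h1
    have h3 := h1.unique (hasFDerivAt_const (0 : ℝ) y)
    have h4 := congrArg (fun L : K →L[ℝ] ℝ => L Y) h3
    simpa using h4
  · rw [fderiv_zero_of_not_differentiableAt hd]
    exact Kᗮ.zero_mem

theorem Prt_surj {K : Submodule ℝ V} {θ : K → V} (hp : ∀ y, θ y ∈ Kᗮ) {ε : ℝ} (hε : ε ≠ 0)
    (ζ W : V) : ∃ η, dpt K θ ε ζ η = W := by
  set Y : K := K.orthogonalProjectionOnto W with hY
  set R : V := W - (Y : V) - fderiv ℝ θ (K.orthogonalProjectionOnto ζ) Y with hR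
  have hRp : R ∈ Kᗮ :=
    Kᗮ.sub_mem (K.sub_starProjection_mem_orthogonal W) (Prt_perp hp _ _)
  have hPR : K.orthogonalProjectionOnto R = 0 :=
    Submodule.orthogonalProjectionOnto_eq_zero_iff.2 hRp
  have hPY : K.orthogonalProjectionOnto (Y : V) = Y :=
    K.orthogonalProjectionOnto_mem_subspace_eq_self Y
  refine ⟨(Y : V) + ε⁻¹ • R, ?_⟩
  have hP : K.orthogonalProjectionOnto ((Y : V) + ε⁻¹ • R) = Y := by
    rw [map_add, map_smul, hPR, hPY, smul_zero, add_zero]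
  have h1 : dpt K θ ε ζ ((Y : V) + ε⁻¹ • R)
      = (K.orthogonalProjectionOnto ((Y : V) + ε⁻¹ • R) : V)
        + fderiv ℝ θ (K.orthogonalProjectionOnto ζ) (K.orthogonalProjectionOnto ((Y : V) + ε⁻¹ • R))
        + ε • (((Y : V) + ε⁻¹ • R) - (K.orthogonalProjectionOnto ((Y : V) + ε⁻¹ • R) : V)) := rfl
  rw [h1, hP, add_sub_cancel_left, smul_smul, mul_inv_cancel₀ hε, one_smul, hR]
  abel

theorem prt {K : Submodule ℝ V} {u : V → ℝ} {v : V × M → ℝ} {θ : K → V} {μ₀ : M}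
    (hu : ContDiffAt ℝ 4 u 0) (hv : ContDiffAt ℝ 3 v (0, μ₀)) (hθ : ContDiffAt ℝ 2 θ 0)
    (hp : ∀ y, θ y ∈ Kᗮ) (h0 : θ 0 = 0)
    (hc : ∀ᶠ y : K in 𝓝 0, fderiv ℝ u ((y : V) + θ y) = 0)
    (hK : ∀ z, (∀ z', D2 u 0 z z' = 0) → z ∈ K)
    (hF : fderiv ℝ (fun y : K => v ((y : V) + θ y, μ₀)) 0 = 0)
    (hnd : ∀ Y : K, (∀ Z : K, D2 (fun y : K => v ((y : V) + θ y, μ₀)) 0 Y Z = 0) → Y = 0)
    {U : Set V} (hU : U ∈ 𝓝 0) :
    ∀ᶠ x : ℝ × M in 𝓝[>] 0 ×ˢ 𝓝 μ₀, ∃ z ∈ U,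
      fderiv ℝ (fun y => u y + x.1 * v (y, x.2)) z = 0 ∧
      ∀ W, (∀ W', D2 (fun y => u y + x.1 * v (y, x.2)) z W W' = 0) → W = 0 := by
  have hu3 : ContDiffAt ℝ 3 u 0 := hu.of_le (by norm_num)
  have hu2 : ContDiffAt ℝ 2 u 0 := hu.of_le (by norm_num)
  have hv0 : ContDiffAt ℝ 3 (fun y : V => v (y, μ₀)) 0 := by
    have h1 : ContDiffAt ℝ 3 (fun y : V => (y, μ₀)) 0 := contDiffAt_id.prodMk contDiffAt_const
    exact ContDiffAt.comp (0 : V) (g := v) hv h1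
  have hv2 : ContDiffAt ℝ 2 (fun y : V => v (y, μ₀)) 0 := hv0.of_le (by norm_num)
  have hu1 : fderiv ℝ u 0 = 0 := by
    have h1 := hc.self_of_nhds
    rw [h0] at h1
    simpa using h1
  have hker := kid_ker hu3 hθ hp h0 hc hK
  have hdt := kid_dtheta hu3 hθ hp h0 hc hK
  obtain ⟨w₀, hw, hw'⟩ := slv (H := D2 u 0) (D2_symm hu2) hker
    (ℓ := -fderiv ℝ (fun y : V => v (y, μ₀)) 0) (by
      intro z hz
      have h1 := kid_F1 hv2 hθ h0 hdt ⟨z, hz⟩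
      have h2 : fderiv ℝ (fun y : K => (fun y : V => v (y, μ₀)) ((y : V) + θ y)) 0 = 0 := hF
      rw [h2] at h1
      have h3 : fderiv ℝ (fun y : V => v (y, μ₀)) 0 z = 0 := h1.symm
      rw [_root_.neg_apply, h3, neg_zero])
  have hw2 : ∀ z', D2 u 0 w₀ z' = -fderiv ℝ (fun y : V => v (y, μ₀)) 0 z' := fun z' => hw' z'
  have hinj : ∀ η, Alim K u (fun y : V => v (y, μ₀)) w₀ η = 0 → η = 0 := fun η h =>
    Alim_inj hu hv0 hθ hp h0 hc hK hw hw2 hnd η h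
  have hfr : Module.finrank ℝ V = Module.finrank ℝ (V →L[ℝ] ℝ) := by
    rw [← (LinearMap.toContinuousLinearMap (𝕜 := ℝ) (E := V) (F' := ℝ)).finrank_eq]
    exact (Subspace.dual_finrank_eq (K := ℝ) (V := V)).symm
  let e : V ≃ₗ[ℝ] (V →L[ℝ] ℝ) := LinearMap.linearEquivOfInjective
    ((Alim K u (fun y : V => v (y, μ₀)) w₀ : V →L[ℝ] V →L[ℝ] ℝ) : V →ₗ[ℝ] (V →L[ℝ] ℝ))
    ((injective_iff_map_eq_zero _).2 hinj) hfr
  let A : V ≃L[ℝ] (V →L[ℝ] ℝ) := e.toContinuousLinearEquiv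
  have hA : (A : V →L[ℝ] V →L[ℝ] ℝ) = Alim K u (fun y : V => v (y, μ₀)) w₀ := by
    ext a b
    rfl
  have hder := Gp_deriv (K := K) hu hv hθ h0 hw
  have hlim := Gp_lim (K := K) hu hv hθ hp h0 hc hK hw
  have hzero := Gp_zero (K := K) (θ := θ) hu hv h0 hu1 hw hw2
  have hAl : Tendsto (fun x : (ℝ × M) × V => fderiv ℝ (Gp K u v θ x.1) x.2)
      ((𝓝[>] 0 ×ˢ 𝓝 μ₀) ×ˢ 𝓝 w₀) (𝓝 (A : V →L[ℝ] V →L[ℝ] ℝ)) := by
    rw [hA]
    refine hlim.congr' ?_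
    filter_upwards [hder] with x hx
    exact hx.fderiv.symm
  -- the points tend to zero
  have hpt : Tendsto (fun x : (ℝ × M) × V => pt K θ x.1.1 x.2)
      ((𝓝[>] 0 ×ˢ 𝓝 μ₀) ×ˢ 𝓝 w₀) (𝓝 0) := by
    have hPw : K.orthogonalProjectionOnto w₀ = 0 :=
      Submodule.orthogonalProjectionOnto_eq_zero_iff.2 hw
    have h1 : Tendsto (fun x : (ℝ × M) × V => x.2) ((𝓝[>] 0 ×ˢ 𝓝 μ₀) ×ˢ 𝓝 w₀) (𝓝 w₀) :=
      tendsto_snd
    have h2 : Tendsto (fun x : (ℝ × M) × V => x.1.1) ((𝓝[>] 0 ×ˢ 𝓝 μ₀) ×ˢ 𝓝 w₀) (𝓝 0) :=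
      (tendsto_nhdsWithin_iff.1 tendsto_id).1.comp (tendsto_fst.comp tendsto_fst)
    have h3 : Tendsto (fun x : (ℝ × M) × V => K.orthogonalProjectionOnto x.2)
        ((𝓝[>] 0 ×ˢ 𝓝 μ₀) ×ˢ 𝓝 w₀) (𝓝 0) := by
      have h4 : Tendsto (fun x : (ℝ × M) × V => K.orthogonalProjectionOnto x.2)
          ((𝓝[>] 0 ×ˢ 𝓝 μ₀) ×ˢ 𝓝 w₀) (𝓝 (K.orthogonalProjectionOnto w₀)) :=
        (K.orthogonalProjectionOnto.continuous.tendsto w₀).comp h1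
      rwa [hPw] at h4
    have h4 : Tendsto (fun x : (ℝ × M) × V => (K.orthogonalProjectionOnto x.2 : V))
        ((𝓝[>] 0 ×ˢ 𝓝 μ₀) ×ˢ 𝓝 w₀) (𝓝 0) := by
      have h5 := (continuous_subtype_val.tendsto (0 : K)).comp h3
      exact h5
    have h5 : Tendsto (fun x : (ℝ × M) × V => θ (K.orthogonalProjectionOnto x.2))
        ((𝓝[>] 0 ×ˢ 𝓝 μ₀) ×ˢ 𝓝 w₀) (𝓝 0) := by
      have h6 := hθ.continuousAt.tendsto.comp h3
      rw [h0] at h6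
      exact h6
    have h7 := (h4.add h5).add (h2.smul (h1.sub h4))
    simp only [sub_zero, zero_smul, add_zero] at h7
    exact h7
  have hUe : ∀ᶠ x : (ℝ × M) × V in (𝓝[>] 0 ×ˢ 𝓝 μ₀) ×ˢ 𝓝 w₀, pt K θ x.1.1 x.2 ∈ U :=
    hpt.eventually hU
  obtain ⟨pa, hpa, pb, hpb, hpab⟩ := Filter.eventually_prod_iff.1 (hder.and hUe)
  have hz := zer (G := Gp K u v θ) (b := w₀) (A := A) (l := 𝓝[>] 0 ×ˢ 𝓝 μ₀)
    (hder.mono fun x hx => hx.differentiableAt) hAl hzero (U := {y | pb y}) hpb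
  have hpos : ∀ᶠ x : ℝ × M in 𝓝[>] 0 ×ˢ 𝓝 μ₀, 0 < x.1 :=
    tendsto_fst.eventually (eventually_mem_nhdsWithin)
  filter_upwards [hpa, hz, hpos] with x hx hxz hx0
  obtain ⟨ζ, hζ, hζ0, hζi⟩ := hxz
  obtain ⟨hd, hζU⟩ := hpab hx hζ
  have hx0' : x.1 ≠ 0 := ne_of_gt hx0
  refine ⟨pt K θ x.1 ζ, hζU, ?_, ?_⟩
  · have h1 : x.1⁻¹ • fderiv ℝ (fun y => u y + x.1 * v (y, x.2)) (pt K θ x.1 ζ) = 0 := hζ0
    exact (smul_eq_zero.1 h1).resolve_left (inv_ne_zero hx0')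
  · intro W hW
    obtain ⟨η, hη⟩ := Prt_surj hp hx0' ζ W
    have h2 : fderiv ℝ (Gp K u v θ x) ζ η = 0 := by
      have h3 : HasFDerivAt (Gp K u v θ x)
        (x.1⁻¹ • (D2 (fun y => u y + x.1 * v (y, x.2)) (pt K θ x.1 ζ)).comp
          (dpt K θ x.1 ζ)) ζ := hd
      rw [h3.fderiv]
      ext z
      have h4 : (x.1⁻¹ • (D2 (fun y => u y + x.1 * v (y, x.2)) (pt K θ x.1 ζ)).comp
          (dpt K θ x.1 ζ)) η z
          = x.1⁻¹ * D2 (fun y => u y + x.1 * v (y, x.2)) (pt K θ x.1 ζ) (dpt K θ x.1 ζ η) z := rfl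
      rw [h4, hη, hW z, mul_zero]
      rfl
    have h5 := hζi η h2
    rw [← hη, h5, map_zero]

end TotFoc
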