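import Pool.Agent.H49.TF.Crs.Kid
import Pool.Agent.H49.TF.Crs.Eig

/-!
# PRQ: an approximately degenerate critical point of `u + ε v`

`u` has the critical manifold `{y + θ y}`, nondegenerate in the sense of Bott; the restriction `F y = v (y + θ y)` has at `0` a critical point with the kernel vector `Y`.
By `kid_F1` `Dv(0)` vanishes on `K`; `slv` (with `kid_ker`, `D2_symm`) gives `z ∈ Kᗮ` with `D2 u 0 z = - Dv(0)`. The functional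
`ℓ = D3 u 0 z Y + D2 v 0 Y` vanishes on `K`: for `Z ∈ K`: by the symmetries `D3 u 0 z Y Z = D3 u 0 Y Z z = - D2 u 0 (D2 θ 0 Y Z) z = - D2 u 0 z (D2 θ 0 Y Z) = Dv(0) (D2 θ 0 Y Z)`
(`kid_D3`), so `ℓ Z = D2 v 0 Y Z + Dv(0) (D2 θ 0 Y Z) = D2 F 0 Y Z = 0` (`kid_F2`). `slv` gives `Y₁` with `D2 u 0 Y₁ = -ℓ`.
Limits: `ε ↦ D(u + ε v)(ε z) = Du(ε z) + ε Dv(ε z)` (for small `ε`, at points near `0`), `Du(0) = 0` (`hc` at `y = 0`, `Filter.Eventually.self_of_nhds`), derivative at `ε = 0`: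
`D2 u 0 z + Dv(0) = 0`: so divided by `ε` it tends to `0` (`HasDerivAt.tendsto_slope` or `hasDerivAt_iff_tendsto_slope_zero`).
`ε ↦ D2 (u + ε v)(ε z) (Y + ε Y₁) = D2 u (ε z) (Y + ε Y₁) + ε D2 v (ε z) (Y + ε Y₁)` is `D2 u 0 Y = 0` at `ε = 0` (`kid_ker`) and has the derivative
`D3 u 0 z Y + D2 u 0 Y₁ + D2 v 0 Y = ℓ + D2 u 0 Y₁ = 0` at `ε = 0`.
-/

set_option autoImplicit false

open scoped Topology ContDiff RealInnerProductSpace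
open Filter Set

namespace TotFoc

variable {V : Type*} [NormedAddCommGroup V] [InnerProductSpace ℝ V] [FiniteDimensional ℝ V]

theorem prtq_D1 {u v : V → ℝ} {y : V} (hu : ContDiffAt ℝ 2 u y) (hv : ContDiffAt ℝ 2 v y)
    (ε : ℝ) : fderiv ℝ (fun x => u x + ε * v x) y = fderiv ℝ u y + ε • fderiv ℝ v y := by
  have h1 : HasFDerivAt u (fderiv ℝ u y) y := (hu.differentiableAt (by norm_num)).hasFDerivAt
  have h2 : HasFDerivAt v (fderiv ℝ v y) y := (hv.differentiableAt (by norm_num)).hasFDerivAt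
  exact (h1.add (h2.const_mul ε)).fderiv

theorem prtq_D2 {u v : V → ℝ} {y : V} (hu : ContDiffAt ℝ 2 u y) (hv : ContDiffAt ℝ 2 v y)
    (ε : ℝ) : D2 (fun x => u x + ε * v x) y = D2 u y + ε • D2 v y := by
  have h1 : fderiv ℝ (fun x => u x + ε * v x) =ᶠ[𝓝 y] fun x => fderiv ℝ u x + ε • fderiv ℝ v x := by
    have hu' : ∀ᶠ z in 𝓝 y, ContDiffAt ℝ 2 u z := hu.eventually (by simp)
    have hv' : ∀ᶠ z in 𝓝 y, ContDiffAt ℝ 2 v z := hv.eventually (by simp)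
    filter_upwards [hu', hv'] with x hx1 hx2
    exact prtq_D1 hx1 hx2 ε
  have h2 : HasFDerivAt (fderiv ℝ u) (fderiv ℝ (fderiv ℝ u) y) y := (Calc_diff hu).hasFDerivAt
  have h3 : HasFDerivAt (fderiv ℝ v) (fderiv ℝ (fderiv ℝ v) y) y := (Calc_diff hv).hasFDerivAt
  unfold D2
  rw [h1.fderiv_eq]
  exact (h2.add (h3.const_smul ε)).fderiv

theorem prtq_slope {E : Type*} [NormedAddCommGroup E] [NormedSpace ℝ E] {A B : ℝ → E}
    (hA : HasDerivAt A 0 0) (h0 : A 0 = 0) (hAB : ∀ᶠ ε in 𝓝 (0 : ℝ), B ε = A ε) :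
    Tendsto (fun ε : ℝ => ε⁻¹ • B ε) (𝓝[>] 0) (𝓝 0) := by
  have h1 := hasDerivAt_iff_tendsto_slope_zero.mp hA
  have h2 : Tendsto (fun t : ℝ => t⁻¹ • (A (0 + t) - A 0)) (𝓝[>] 0) (𝓝 0) :=
    h1.mono_left (nhdsWithin_mono _ fun x hx => ne_of_gt hx)
  refine h2.congr' ?_
  filter_upwards [hAB.filter_mono nhdsWithin_le_nhds] with ε hε
  rw [hε, h0, zero_add, sub_zero]

theorem prtq {K : Submodule ℝ V} {u v : V → ℝ} {θ : K → V} (hu : ContDiffAt ℝ 4 u 0)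
    (hv : ContDiffAt ℝ 3 v 0) (hθ : ContDiffAt ℝ 2 θ 0) (hp : ∀ y, θ y ∈ Kᗮ)
    (h0 : θ 0 = 0) (hc : ∀ᶠ y : K in 𝓝 0, fderiv ℝ u ((y : V) + θ y) = 0)
    (hK : ∀ z, (∀ z', D2 u 0 z z' = 0) → z ∈ K)
    (hF : fderiv ℝ (fun y : K => v ((y : V) + θ y)) 0 = 0) {Y : K}
    (hY : ∀ Z : K, D2 (fun y : K => v ((y : V) + θ y)) 0 Y Z = 0) :
    ∃ z Y₁ : V, Tendsto (fun ε : ℝ => ε⁻¹ • fderiv ℝ (fun x => u x + ε * v x) (ε • z))
        (𝓝[>] 0) (𝓝 0) ∧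
      Tendsto (fun ε : ℝ => ε⁻¹ • D2 (fun x => u x + ε * v x) (ε • z) ((Y : V) + ε • Y₁))
        (𝓝[>] 0) (𝓝 0) := by
  have hu3 : ContDiffAt ℝ 3 u 0 := hu.of_le (by norm_num)
  have hu2 : ContDiffAt ℝ 2 u 0 := hu.of_le (by norm_num)
  have hv2 : ContDiffAt ℝ 2 v 0 := hv.of_le (by norm_num)
  have hd := kid_dtheta hu3 hθ hp h0 hc hK
  have hker := kid_ker hu3 hθ hp h0 hc hK
  have hDu0 : fderiv ℝ u 0 = 0 := by
    have := hc.self_of_nhds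
    rw [h0] at this
    simpa using this
  have hv0 : ∀ Z ∈ K, fderiv ℝ v 0 Z = 0 := by
    intro Z hZ
    have h1 := kid_F1 hv2 hθ h0 hd ⟨Z, hZ⟩
    rw [hF] at h1
    exact h1.symm
  obtain ⟨z, -, hz⟩ := slv (H := D2 u 0) (fun a b => D2_symm hu2 a b) hker
    (ℓ := -fderiv ℝ v 0) (fun Z hZ => by
      show -(fderiv ℝ v 0 Z) = 0
      rw [hv0 Z hZ, neg_zero])
  have hz' : ∀ z', D2 u 0 z z' = -(fderiv ℝ v 0 z') := hz
  obtain ⟨Y₁, -, hY₁⟩ := slv (H := D2 u 0) (fun a b => D2_symm hu2 a b) hker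
    (ℓ := -(D3 u 0 z Y + D2 v 0 Y)) (fun Z hZ => by
      show -(D3 u 0 z Y Z + D2 v 0 Y Z) = 0
      have h1 : D3 u 0 z Y Z = D3 u 0 Y Z z := by
        rw [D3_symm_left hu3 z Y Z, D3_symm_right hu3 Y z Z]
      have h2 := kid_D3 hu3 hθ hp h0 hc hK Y ⟨Z, hZ⟩ z
      have h3 := kid_F2 hv2 hθ h0 hd Y ⟨Z, hZ⟩
      rw [hY] at h3
      have h4 := hz' (D2 θ 0 Y ⟨Z, hZ⟩)
      have h5 := D2_symm hu2 (D2 θ 0 Y ⟨Z, hZ⟩) z
      have h2' : D3 u 0 Y Z z + D2 u 0 (D2 θ 0 Y ⟨Z, hZ⟩) z = 0 := h2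
      have h3' : (0 : ℝ) = D2 v 0 Y Z + fderiv ℝ v 0 (D2 θ 0 Y ⟨Z, hZ⟩) := h3
      rw [h1]
      linarith)
  have hY₁' : ∀ z', D2 u 0 Y₁ z' = -(D3 u 0 z Y z' + D2 v 0 Y z') := hY₁
  have hDuY : D2 u 0 Y = 0 := by
    ext z'
    exact (hker Y).mpr Y.2 z'
  have hzline : HasDerivAt (fun ε : ℝ => ε • z) z 0 := by
    simpa using (hasDerivAt_id (0 : ℝ)).smul_const z
  have hz0 : (fun ε : ℝ => ε • z) 0 = 0 := zero_smul _ _
  have htend : Tendsto (fun ε : ℝ => ε • z) (𝓝 0) (𝓝 0) := by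
    have := hzline.continuousAt.tendsto
    simpa using this
  have hevu : ∀ᶠ ε in 𝓝 (0 : ℝ), ContDiffAt ℝ 2 u (ε • z) := htend.eventually (hu2.eventually (by simp))
  have hevv : ∀ᶠ ε in 𝓝 (0 : ℝ), ContDiffAt ℝ 2 v (ε • z) := htend.eventually (hv2.eventually (by simp))
  have hu1 : HasDerivAt (fun ε : ℝ => fderiv ℝ u (ε • z)) (D2 u 0 z) 0 := by
    have h1 : HasFDerivAt (fderiv ℝ u) (D2 u 0) ((fun ε : ℝ => ε • z) 0) := by
      rw [hz0]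
      exact (Calc_diff hu2).hasFDerivAt
    exact h1.comp_hasDerivAt 0 hzline
  have hv1 : HasDerivAt (fun ε : ℝ => fderiv ℝ v (ε • z)) (D2 v 0 z) 0 := by
    have h1 : HasFDerivAt (fderiv ℝ v) (D2 v 0) ((fun ε : ℝ => ε • z) 0) := by
      rw [hz0]
      exact (Calc_diff hv2).hasFDerivAt
    exact h1.comp_hasDerivAt 0 hzline
  have hu2' : HasDerivAt (fun ε : ℝ => D2 u (ε • z)) (D3 u 0 z) 0 := by
    have h1 : HasFDerivAt (D2 u) (D3 u 0) 0 := (Calc_diff2 hu3).hasFDerivAt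
    exact HasFDerivAt.comp_hasDerivAt_of_eq (l := D2 u) (f := fun ε : ℝ => ε • z) 0 h1 hzline
      hz0.symm
  have hv2' : HasDerivAt (fun ε : ℝ => D2 v (ε • z)) (D3 v 0 z) 0 := by
    have h1 : HasFDerivAt (D2 v) (D3 v 0) 0 := (Calc_diff2 hv).hasFDerivAt
    exact HasFDerivAt.comp_hasDerivAt_of_eq (l := D2 v) (f := fun ε : ℝ => ε • z) 0 h1 hzline
      hz0.symm
  have hYline : HasDerivAt (fun ε : ℝ => (Y : V) + ε • Y₁) Y₁ 0 := by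
    simpa using ((hasDerivAt_id (0 : ℝ)).smul_const Y₁).const_add (Y : V)
  refine ⟨z, Y₁, ?_, ?_⟩
  · refine prtq_slope (A := fun ε : ℝ => fderiv ℝ u (ε • z) + ε • fderiv ℝ v (ε • z)) ?_ ?_ ?_
    · have h1 := hu1.add ((hasDerivAt_id (0 : ℝ)).smul hv1)
      have e : D2 u 0 z + ((id (0 : ℝ)) • D2 v 0 z + (1 : ℝ) • fderiv ℝ v ((0 : ℝ) • z)) = 0 := by
        ext z'
        show D2 u 0 z z' + ((0 : ℝ) • D2 v 0 z z' + (1 : ℝ) • fderiv ℝ v ((0 : ℝ) • z) z') = 0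
        rw [hz' z', zero_smul ℝ z]
        simp
      rw [e] at h1
      exact h1
    · show fderiv ℝ u ((0 : ℝ) • z) + (0 : ℝ) • fderiv ℝ v ((0 : ℝ) • z) = 0
      rw [zero_smul, zero_smul, hDu0, add_zero]
    · filter_upwards [hevu, hevv] with ε h1 h2
      exact prtq_D1 h1 h2 ε
  · refine prtq_slope (A := fun ε : ℝ => D2 u (ε • z) ((Y : V) + ε • Y₁)
      + ε • D2 v (ε • z) ((Y : V) + ε • Y₁)) ?_ ?_ ?_
    · have h1 := (hu2'.clm_apply hYline).add ((hasDerivAt_id (0 : ℝ)).smul (hv2'.clm_apply hYline))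
      refine h1.congr_deriv ?_
      ext z'
      have e0 : (0 : ℝ) • z = 0 := zero_smul _ _
      have e1 : (Y : V) + (0 : ℝ) • Y₁ = Y := by rw [zero_smul, add_zero]
      have h2 := hY₁' z'
      rw [e0, e1]
      show D3 u 0 z Y z' + D2 u 0 Y₁ z' + ((0 : ℝ) • (D3 v 0 z Y z' + D2 v 0 Y₁ z')
        + (1 : ℝ) • D2 v 0 Y z') = 0
      rw [zero_smul, one_smul]
      linarith
    · show D2 u ((0 : ℝ) • z) ((Y : V) + (0 : ℝ) • Y₁)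
        + (0 : ℝ) • D2 v ((0 : ℝ) • z) ((Y : V) + (0 : ℝ) • Y₁) = 0
      rw [zero_smul ℝ z, zero_smul ℝ Y₁, add_zero, hDuY, zero_smul, add_zero]
    · filter_upwards [hevu, hevv] with ε h1 h2
      rw [prtq_D2 h1 h2 ε]
      rfl

end TotFoc
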