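import Pool.Agent.H49.TF.Crs.Dat
import Pool.Agent.H49.TF.Crs.Prt

/-!
# PSD: perturbation of a nondegenerate critical point on the critical manifold

Chart `(T, g)` of `X` at `p'` (`hX`), `hb` and `dat`: `K`, `θ`, `D : CrData ..`. Apply `prt` with `V = T`, `M = ℝ × E`, `μ₀ = (c', a')`, `u y = fn c a (gr p' T g y)`,
`v (y, (c'', a'')) = fn c'' a'' (gr p' T g y)` (`ContDiffAt ℝ 3` at `(0, μ₀)`: `fn` is a polynomial in `(c'', a'', x)` and `gr p' T g` is `C^3` at `0`), `hF = D.rest1`, `hnd` from `D.rest2` and `h'`,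
`U` the neighbourhood of `0` where `crit_near` and `nd_near` hold. `fn_lin`: `u y + ε * v (y, (c'', a'')) = fn (c + ε * c'') (a + ε • a'') (gr p' T g y)`, so the point
`x' = gr p' T g z` is critical (`crit_near`) and nondegenerate (`nd_near`).
-/

set_option autoImplicit false

open scoped Topology ContDiff RealInnerProductSpace
open Filter Set

namespace TotFoc

variable {E : Type*} [NormedAddCommGroup E] [InnerProductSpace ℝ E] [FiniteDimensional ℝ E]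

theorem Psd_smooth {p' : E} {T : Submodule ℝ E} {g : T → E} (h : ContDiffAt ℝ 3 g 0)
    (μ₀ : ℝ × E) :
    ContDiffAt ℝ 3 (fun w : T × (ℝ × E) => fn w.2.1 w.2.2 (gr p' T g w.1)) (0, μ₀) := by
  have h1 : ContDiffAt ℝ 3 (gr p' T g) 0 := Hess_contDiffAt_gr h
  have h2 : ContDiffAt ℝ 3 (fun w : T × (ℝ × E) => gr p' T g w.1) (0, μ₀) :=
    ContDiffAt.comp ((0 : T), μ₀) (g := gr p' T g) (f := Prod.fst) h1 contDiffAt_fst
  have h3 : ContDiffAt ℝ 3 (fun w : T × (ℝ × E) => w.2.1) (0, μ₀) :=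
    contDiffAt_fst.comp ((0 : T), μ₀) contDiffAt_snd
  have h4 : ContDiffAt ℝ 3 (fun w : T × (ℝ × E) => w.2.2) (0, μ₀) :=
    contDiffAt_snd.comp ((0 : T), μ₀) contDiffAt_snd
  unfold fn
  exact ((h3.div_const 2).mul (h2.norm_sq ℝ)).sub (h4.inner ℝ h2)

theorem psd {r : ℕ∞ω} (hr : ∞ ≤ r) {X : Set E} (hX : IsSub r X) (hb : Bott r X) {c c' : ℝ}
    {a a' p' : E} (hn : ¬ ND r X c a p') (hc : Crit (CrS X c a) c' a' p')
    (h' : ND r (CrS X c a) c' a' p') :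
    ∀ᶠ x : ℝ × (ℝ × E) in 𝓝[>] 0 ×ˢ 𝓝 (c', a'), ∃ x' : E,
      Crit X (c + x.1 * x.2.1) (a + x.1 • x.2.2) x' ∧
      ND r X (c + x.1 * x.2.1) (a + x.1 • x.2.2) x' := by
  have hcr : Crit X c a p' := hc.1
  have h4 : (4 : ℕ∞ω) ≤ r := by
    refine le_trans ?_ hr
    have : ((4 : ℕ∞) : ℕ∞ω) ≤ ((⊤ : ℕ∞) : ℕ∞ω) := WithTop.coe_le_coe.mpr le_top
    exact this
  have h3 : (3 : ℕ∞ω) ≤ r := le_trans (by norm_num) h4
  have h2 : (2 : ℕ∞ω) ≤ r := le_trans (by norm_num) h4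
  have h1 : (1 : ℕ∞ω) ≤ r := le_trans (by norm_num) h4
  obtain ⟨T, g, h, -⟩ := hX.2 p' hcr.1
  obtain ⟨gS, hS⟩ := hb c a p' T g hcr hn h
  obtain ⟨K, θ, D⟩ := dat hr h hS
  rw [D.rest2 c' a' hc] at h'
  have hU : {y | (∀ (c : ℝ) (a : E), Crit X c a (gr p' T g y) ↔
      fderiv ℝ (fun y => fn c a (gr p' T g y)) y = 0) ∧
      (∀ (c : ℝ) (a : E), Crit X c a (gr p' T g y) → (ND r X c a (gr p' T g y) ↔
      ∀ Z : T, (∀ Z' : T, D2 (fun y => fn c a (gr p' T g y)) y Z Z' = 0) → Z = 0))} ∈ 𝓝 (0 : T) :=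
    (h.crit_near h1).and (h.nd_near h2 hX.2)
  have hp := prt (K := K) (u := fun z => fn c a (gr p' T g z))
    (v := fun w : T × (ℝ × E) => fn w.2.1 w.2.2 (gr p' T g w.1)) (θ := θ) (μ₀ := (c', a'))
    (Hess_contDiffAt c a (h.smooth.of_le h4)) (Psd_smooth (h.smooth.of_le h3) (c', a'))
    D.smooth D.perp D.zero D.crit D.ker (D.rest1 c' a' hc) h' hU
  filter_upwards [hp] with x hx
  obtain ⟨z, ⟨z1, z2⟩, z3, z4⟩ := hx
  have hfun : (fun y => fn c a (gr p' T g y) + x.1 * fn x.2.1 x.2.2 (gr p' T g y)) =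
      fun y => fn (c + x.1 * x.2.1) (a + x.1 • x.2.2) (gr p' T g y) := by
    funext y
    rw [fn_lin]
  simp only [hfun] at z3 z4
  have hcz := (z1 (c + x.1 * x.2.1) (a + x.1 • x.2.2)).mpr z3
  exact ⟨gr p' T g z, hcz, (z2 _ _ hcz).mpr z4⟩

end TotFoc
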