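import Pool.Agent.H49.TF.Crs.Dat
import Pool.Agent.H49.TF.Crs.Fix
import Pool.Agent.H49.TF.Crs.Prtq

/-!
# QSD: perturbation of a degenerate critical point on the critical manifold

Chart `(T, g)` of `X` at `q'`, `hb` and `dat`: `K`, `θ`, `D : CrData ..`. `u y = fn c a (gr q' T g y)`, `v y = fn c' a' (gr q' T g y)`. `D.rest2` and `h'` give `Y : K`, `Y ≠ 0`, with
`D2 (..) 0 Y Z = 0` for all `Z ∈ K`. `prtq` gives `z`, `Y₁`. `fn_lin`: `u x + ε * v x = fn (c + ε * c') (a + ε • a') (gr q' T g x)`. Let `N` be in the filter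
`𝓝[>] 0 ×ˢ 𝓝 (c', a')`: it contains `(0, ε₀) × (ball)` of radius `ρ` around `(c', a')`. Take `B` from `fixdeg`, `η > 0` with `B η < ρ`. For small `ε > 0`:
`y = ε • z` is near `0`, `W = Y + ε • Y₁` satisfies `‖W‖ ≥ ‖Y‖ / 2 > 0`; by the two limits `|fderiv .. y Z| ≤ ε η ‖Z‖` and
`|D2 .. y W Z| ≤ ε η (‖Y‖ / 2) ‖Z‖ ≤ ε η ‖W‖ ‖Z‖`. `fixdeg` with `c₁ = c + ε c'`, `a₁ = a + ε • a'`, `δ = ε η` gives `c₂`, `a₂`; put `c'' = c' + ε⁻¹ (c₂ - c₁)`, `a'' = a' + ε⁻¹ • (a₂ - a₁)`: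
`|c'' - c'| ≤ B η`, `‖a'' - a'‖ ≤ B η`, `c + ε c'' = c₂`, `a + ε • a'' = a₂`. So `(ε, (c'', a'')) ∈ N`.
(`Filter.frequently_iff`: for all `N` in the filter there is a point in `N`.)
-/

set_option autoImplicit false

open scoped Topology ContDiff RealInnerProductSpace
open Filter Set

namespace TotFoc

variable {E : Type*} [NormedAddCommGroup E] [InnerProductSpace ℝ E] [FiniteDimensional ℝ E]

theorem qsd {r : ℕ∞ω} (hr : ∞ ≤ r) {X : Set E} (hX : IsSub r X) (hb : Bott r X) {c c' : ℝ}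
    {a a' q' : E} (hn : ¬ ND r X c a q') (hc : Crit (CrS X c a) c' a' q')
    (h' : ¬ ND r (CrS X c a) c' a' q') :
    ∃ᶠ x : ℝ × (ℝ × E) in 𝓝[>] 0 ×ˢ 𝓝 (c', a'), ∃ x' : E,
      Crit X (c + x.1 * x.2.1) (a + x.1 • x.2.2) x' ∧
      ¬ ND r X (c + x.1 * x.2.1) (a + x.1 • x.2.2) x' := by
  have hcr : Crit X c a q' := hc.1
  have h4 : (4 : ℕ∞ω) ≤ r := by
    refine le_trans ?_ hr
    have : ((4 : ℕ∞) : ℕ∞ω) ≤ ((⊤ : ℕ∞) : ℕ∞ω) := WithTop.coe_le_coe.mpr le_top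
    exact this
  have h3 : (3 : ℕ∞ω) ≤ r := le_trans (by norm_num) h4
  obtain ⟨T, g, h, -⟩ := hX.2 q' hcr.1
  obtain ⟨gS, hS⟩ := hb c a q' T g hcr hn h
  obtain ⟨K, θ, D⟩ := dat hr h hS
  rw [D.rest2 c' a' hc] at h'
  push Not at h'
  obtain ⟨Y, hY, hY0⟩ := h'
  obtain ⟨z, Y₁, t1, t2⟩ := prtq (K := K) (u := fun z => fn c a (gr q' T g z))
    (v := fun z => fn c' a' (gr q' T g z)) (θ := θ)
    (Hess_contDiffAt c a (h.smooth.of_le h4)) (Hess_contDiffAt c' a' (h.smooth.of_le h3))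
    D.smooth D.perp D.zero D.crit D.ker (D.rest1 c' a' hc) hY
  obtain ⟨B, hB, hfix⟩ := fixdeg hr hX.2 h
  rw [Filter.frequently_iff]
  intro U hU
  obtain ⟨t₁, ht₁, t₂, ht₂, hsub⟩ := Filter.mem_prod_iff.mp hU
  obtain ⟨ρ, hρ, hball⟩ := Metric.mem_nhds_iff.mp ht₂
  set η : ℝ := ρ / (2 * B) with hη
  have hη0 : 0 < η := by positivity
  have hBη : B * η = ρ / 2 := by
    rw [hη]
    field_simp
  have hYn : 0 < ‖(Y : T)‖ := by
    rw [norm_pos_iff]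
    intro h0
    exact hY0 (Subtype.ext h0)
  have s0 : Tendsto (fun ε : ℝ => ε) (𝓝[>] 0) (𝓝 0) := tendsto_nhdsWithin_of_tendsto_nhds tendsto_id
  have s1 : Tendsto (fun ε : ℝ => ε • z) (𝓝[>] 0) (𝓝 0) := by
    have := s0.smul_const z
    rwa [zero_smul] at this
  have s2 : Tendsto (fun ε : ℝ => ‖(Y : T) + ε • Y₁‖) (𝓝[>] 0) (𝓝 ‖(Y : T)‖) := by
    have := ((s0.smul_const Y₁).const_add (Y : T)).norm
    rwa [zero_smul, add_zero] at this
  have e4 := (tendsto_zero_iff_norm_tendsto_zero.mp t1).eventually (gt_mem_nhds hη0)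
  have e5 := (tendsto_zero_iff_norm_tendsto_zero.mp t2).eventually
    (gt_mem_nhds (show (0 : ℝ) < η * (‖(Y : T)‖ / 2) by positivity))
  have e6 := s2.eventually (lt_mem_nhds (half_lt_self hYn))
  have e2 : ∀ᶠ ε : ℝ in 𝓝[>] 0, 0 < ε := self_mem_nhdsWithin
  obtain ⟨ε, k1, k2, k3, k4, k5, k6⟩ := (((eventually_mem_set.mpr ht₁).and (e2.and ((s1.eventually hfix).and (e4.and (e5.and e6)))))).exists
  have hfun : (fun x => fn c a (gr q' T g x) + ε * fn c' a' (gr q' T g x)) =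
      fun x => fn (c + ε * c') (a + ε • a') (gr q' T g x) := by
    funext x
    rw [fn_lin]
  simp only [hfun] at k4 k5
  rw [norm_smul, norm_inv, Real.norm_of_nonneg k2.le] at k4 k5
  have k4' : ‖fderiv ℝ (fun x => fn (c + ε * c') (a + ε • a') (gr q' T g x)) (ε • z)‖ ≤ ε * η := by
    have := mul_le_mul_of_nonneg_left k4.le k2.le
    rwa [mul_inv_cancel_left₀ k2.ne'] at this
  have k5' : ‖D2 (fun x => fn (c + ε * c') (a + ε • a') (gr q' T g x)) (ε • z)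
      ((Y : T) + ε • Y₁)‖ ≤ ε * (η * (‖(Y : T)‖ / 2)) := by
    have := mul_le_mul_of_nonneg_left k5.le k2.le
    rwa [mul_inv_cancel_left₀ k2.ne'] at this
  have hW : (Y : T) + ε • Y₁ ≠ 0 := by
    rw [← norm_pos_iff]
    linarith
  obtain ⟨c₂, a₂, m1, m2, m3, m4, -⟩ := k3 (c + ε * c') (a + ε • a') ((Y : T) + ε • Y₁) (ε * η) hW
    (fun Z => by
      rw [← Real.norm_eq_abs]
      refine (ContinuousLinearMap.le_opNorm (fderiv ℝ (fun x => fn (c + ε * c') (a + ε • a')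
        (gr q' T g x)) (ε • z)) Z).trans ?_
      exact mul_le_mul_of_nonneg_right k4' (norm_nonneg _))
    (fun Z => by
      rw [← Real.norm_eq_abs]
      refine (ContinuousLinearMap.le_opNorm (D2 (fun x => fn (c + ε * c') (a + ε • a')
        (gr q' T g x)) (ε • z) ((Y : T) + ε • Y₁)) Z).trans ?_
      refine mul_le_mul_of_nonneg_right (k5'.trans ?_) (norm_nonneg _)
      rw [mul_assoc]
      exact mul_le_mul_of_nonneg_left (mul_le_mul_of_nonneg_left k6.le hη0.le) k2.le)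
  refine ⟨(ε, (c' + ε⁻¹ * (c₂ - (c + ε * c')), a' + ε⁻¹ • (a₂ - (a + ε • a')))), ?_, gr q' T g (ε • z), ?_⟩
  · apply hsub
    refine ⟨k1, hball ?_⟩
    rw [Metric.mem_ball, Prod.dist_eq, max_lt_iff]
    have hb' : ε⁻¹ * (B * (ε * η)) < ρ := by
      have : ε⁻¹ * (B * (ε * η)) = B * η := by
        field_simp
      rw [this, hBη]
      linarith
    have hεi : 0 ≤ ε⁻¹ := (inv_pos.mpr k2).le
    constructor
    · rw [Real.dist_eq]
      have e : c' + ε⁻¹ * (c₂ - (c + ε * c')) - c' = ε⁻¹ * (c₂ - (c + ε * c')) := by ring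
      show |c' + ε⁻¹ * (c₂ - (c + ε * c')) - c'| < ρ
      rw [e, abs_mul, abs_of_nonneg hεi]
      exact (mul_le_mul_of_nonneg_left m1 hεi).trans_lt hb'
    · show dist (a' + ε⁻¹ • (a₂ - (a + ε • a'))) a' < ρ
      rw [dist_eq_norm, add_sub_cancel_left, norm_smul, norm_inv, Real.norm_of_nonneg k2.le]
      exact (mul_le_mul_of_nonneg_left m2 hεi).trans_lt hb'
  · have f1 : c + ε * (c' + ε⁻¹ * (c₂ - (c + ε * c'))) = c₂ := by
      field_simp
      ring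
    have f2 : a + ε • (a' + ε⁻¹ • (a₂ - (a + ε • a'))) = a₂ := by
      rw [smul_add, smul_smul, mul_inv_cancel₀ k2.ne', one_smul]
      abel
    simp only [f1, f2]
    exact ⟨m3, m4⟩

end TotFoc
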